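import Pool.Agent.X189.HN.Circ

set_option autoImplicit false

/-!
The construction of the time-change function.
-/

namespace Pool.Agent.X189.HN

open MeasureTheory Set Filter Topology Heis
open scoped ENNReal NNReal

/-- the data of the construction -/
structure D where
  K : ℕ → ℝ
  th : ℝ
  p : ℕ → ℤ
  r : ℕ → ℤ
  hK1 : ∀ n, 1 ≤ K n
  hK : ∀ n, ∀ i ≤ n + 1, ∀ v, ‖iteratedDeriv i (G n) v‖ ≤ K n
  hr : ∀ n, 0 < r n
  hpos : ∀ n, 0 < p n + r n * th
  hsmall : ∀ n, (p n + r n * th) * K n * (|(p n : ℝ)| + |(r n : ℝ)| + 1) ^ n ≤ (1 / 2) ^ (n + 3)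
  hdec : ∀ n, K (n + 1) * (p (n + 1) + r (n + 1) * th) ≤ (1 / 2) ^ (n + 1) * (p n + r n * th)

theorem exists_D : Nonempty D := by
  obtain ⟨K, hK⟩ := exists_K
  obtain ⟨θ, p, r, h⟩ := exists_data K (fun n => (hK n).1)
  exact ⟨⟨K, θ, p, r, fun n => (hK n).1, fun n => (hK n).2, fun n => (h n).1, fun n => (h n).2.1,
    fun n => (h n).2.2.1, fun n => (h n).2.2.2⟩⟩

namespace D

variable (d : D)

/-- the small divisors -/
noncomputable def del (n : ℕ) : ℝ := d.p n + d.r n * d.th

theorem del_pos (n : ℕ) : 0 < d.del n := d.hpos n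

theorem K_pos (n : ℕ) : 0 < d.K n := lt_of_lt_of_le one_pos (d.hK1 n)

theorem del_K_le (n : ℕ) : d.del n * d.K n ≤ (1 / 2) ^ (n + 3) := by
  refine le_trans ?_ (d.hsmall n)
  have h0 : 0 ≤ (d.p n + d.r n * d.th) * d.K n :=
    mul_nonneg (d.hpos n).le (d.K_pos n).le
  have h1 : (1:ℝ) ≤ (|(d.p n : ℝ)| + |(d.r n : ℝ)| + 1) ^ n :=
    one_le_pow₀ (by linarith [abs_nonneg (d.p n : ℝ), abs_nonneg (d.r n : ℝ)])
  calc d.del n * d.K n = (d.p n + d.r n * d.th) * d.K n * 1 := by rw [mul_one]; rfl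
    _ ≤ _ := mul_le_mul_of_nonneg_left h1 h0

theorem del_le (n : ℕ) : d.del n ≤ (1 / 2) ^ (n + 3) := by
  refine le_trans ?_ (d.del_K_le n)
  exact le_mul_of_one_le_right (d.del_pos n).le (d.hK1 n)

theorem summable_del_K : Summable fun n => d.del n * d.K n := by
  refine Summable.of_nonneg_of_le (fun n => mul_nonneg (d.del_pos n).le (d.K_pos n).le)
    d.del_K_le ?_
  simp only [pow_add]
  exact summable_geometric_two.mul_right _

theorem tsum_del_K : ∑' n, d.del n * d.K n ≤ 1 / 4 := by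
  have hs : Summable fun n : ℕ => ((1:ℝ) / 2) ^ (n + 3) := by
    simp only [pow_add]
    exact summable_geometric_two.mul_right _
  refine (d.summable_del_K.tsum_le_tsum d.del_K_le hs).trans ?_
  simp only [pow_add]
  rw [tsum_mul_right, tsum_geometric_two]
  norm_num

theorem tendsto_del : Tendsto d.del atTop (𝓝 0) := by
  have h : Tendsto (fun n : ℕ => ((1:ℝ) / 2) ^ (n + 3)) atTop (𝓝 0) := by
    have := tendsto_pow_atTop_nhds_zero_of_lt_one (r := (1:ℝ) / 2) (by norm_num) (by norm_num)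
    exact this.comp (tendsto_add_atTop_nat 3)
  exact squeeze_zero (fun n => (d.del_pos n).le) d.del_le h

theorem irrational : Irrational d.th := by
  rintro ⟨q, hq⟩
  have hden : (0 : ℝ) < q.den := by exact_mod_cast q.den_pos
  have h1 : ∀ n, 1 / (q.den : ℝ) ≤ d.del n := by
    intro n
    have e1 : d.del n * q.den = ((d.p n * q.den + d.r n * q.num : ℤ) : ℝ) := by
      unfold del
      rw [← hq]
      push_cast
      have : (q : ℝ) * q.den = q.num := by exact_mod_cast Rat.mul_den_eq_num q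
      rw [add_mul, mul_assoc, this]
    have h2 : 0 < d.del n * q.den := mul_pos (d.del_pos n) hden
    rw [e1] at h2
    have h3 : 1 ≤ d.p n * q.den + d.r n * q.num := by
      have : (0 : ℤ) < d.p n * q.den + d.r n * q.num := by exact_mod_cast h2
      omega
    have h4 : (1:ℝ) ≤ ((d.p n * q.den + d.r n * q.num : ℤ) : ℝ) := by exact_mod_cast h3
    rw [← e1] at h4
    rw [div_le_iff₀ hden]
    exact h4
  have h2 : 1 / (q.den : ℝ) ≤ 0 := ge_of_tendsto' d.tendsto_del h1
  have h3 : 0 < 1 / (q.den : ℝ) := by positivity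
  linarith

/-! ### The transfer functions -/

/-- the transfer functions -/
noncomputable def g (n : ℕ) (x : M) : ℝ := (G_periodic n).lift (chi (d.p n) (d.r n) x)

theorem G'_periodic (n : ℕ) : Function.Periodic (deriv (G n)) 1 := by
  have := periodic_iter (G_periodic n) 1
  rwa [iteratedDeriv_one] at this

/-- their derivatives -/
noncomputable def g' (n : ℕ) (x : M) : ℝ := (G'_periodic n).lift (chi (d.p n) (d.r n) x)

theorem g_of_cc {n : ℕ} {x : M} {v : ℝ} (h : chi (d.p n) (d.r n) x = cc v) : d.g n x = G n v := by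
  rw [g, h]
  exact (G_periodic n).lift_coe v

theorem g'_of_cc {n : ℕ} {x : M} {v : ℝ} (h : chi (d.p n) (d.r n) x = cc v) :
    d.g' n x = deriv (G n) v := by
  rw [g', h]
  exact (G'_periodic n).lift_coe v

theorem G_cont (n : ℕ) : Continuous (G n) := (G_contDiff n).continuous
theorem G'_cont (n : ℕ) : Continuous (deriv (G n)) := by
  have := (G_contDiff n).continuous_iteratedDeriv 1 (by exact_mod_cast le_top)
  rwa [iteratedDeriv_one] at this

theorem g_cont (n : ℕ) : Continuous (d.g n) :=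
  (continuous_lift (G_periodic n) (G_cont n)).comp (continuous_chi _ _)
theorem g'_cont (n : ℕ) : Continuous (d.g' n) :=
  (continuous_lift (G'_periodic n) (G'_cont n)).comp (continuous_chi _ _)

theorem abs_deriv_le (n : ℕ) (v : ℝ) : |deriv (G n) v| ≤ d.K n := by
  have := d.hK n 1 (by omega) v
  rwa [iteratedDeriv_one, Real.norm_eq_abs] at this

theorem g'_le (n : ℕ) (x : M) : |d.g' n x| ≤ d.K n := by
  obtain ⟨v, hv⟩ := cc_surj (chi (d.p n) (d.r n) x)
  rw [d.g'_of_cc hv.symm]
  exact d.abs_deriv_le n v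

theorem g_nonneg (n : ℕ) (x : M) : 0 ≤ d.g n x := by
  obtain ⟨v, hv⟩ := cc_surj (chi (d.p n) (d.r n) x)
  rw [d.g_of_cc hv.symm]
  exact G_nonneg n v

theorem g_le (n : ℕ) (x : M) : d.g n x ≤ 4 ^ n := by
  obtain ⟨v, hv⟩ := cc_surj (chi (d.p n) (d.r n) x)
  rw [d.g_of_cc hv.symm]
  exact G_le n v

theorem g_phi {n : ℕ} {x : M} {v : ℝ} (h : chi (d.p n) (d.r n) x = cc v) (t : ℝ) :
    d.g n (phi d.th t x) = G n (d.del n * t + v) := by
  refine d.g_of_cc ?_
  rw [chi_phi, h, cc_add]
  rfl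

theorem g'_phi {n : ℕ} {x : M} {v : ℝ} (h : chi (d.p n) (d.r n) x = cc v) (t : ℝ) :
    d.g' n (phi d.th t x) = deriv (G n) (d.del n * t + v) := by
  refine d.g'_of_cc ?_
  rw [chi_phi, h, cc_add]
  rfl

theorem int_g' (n : ℕ) (x : M) (T : ℝ) :
    ∫ t in (0:ℝ)..T, d.del n * d.g' n (phi d.th t x) = d.g n (phi d.th T x) - d.g n x := by
  obtain ⟨v, hv⟩ := cc_surj (chi (d.p n) (d.r n) x)
  have e1 : d.g n x = G n (d.del n * 0 + v) := by
    rw [mul_zero, zero_add]; exact d.g_of_cc hv.symm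
  rw [e1]
  simp only [d.g_phi hv.symm, d.g'_phi hv.symm]
  refine intervalIntegral.integral_eq_sub_of_hasDerivAt
    (f := fun t => G n (d.del n * t + v)) (fun t _ => ?_) ?_
  · have h1 : HasDerivAt (G n) (deriv (G n) (d.del n * t + v)) (d.del n * t + v) :=
      (((G_contDiff n).differentiable (by simp)) _).hasDerivAt
    have h2 : HasDerivAt (fun t : ℝ => d.del n * t + v) (d.del n) t := by
      simpa using ((hasDerivAt_id t).const_mul (d.del n)).add_const v
    have h3 := h1.comp t h2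
    rw [mul_comm] at h3
    exact h3
  · refine Continuous.intervalIntegrable ?_ _ _
    exact continuous_const.mul ((G'_cont n).comp (by fun_prop))

theorem g_diff_le (n : ℕ) (x : M) (T : ℝ) :
    |d.g n (phi d.th T x) - d.g n x| ≤ d.del n * d.K n * |T| := by
  rw [← d.int_g' n x T]
  have h := intervalIntegral.norm_integral_le_of_norm_le_const (a := 0) (b := T)
    (f := fun t => d.del n * d.g' n (phi d.th t x)) (C := d.del n * d.K n) (fun t _ => by
      rw [Real.norm_eq_abs, abs_mul, abs_of_pos (d.del_pos n)]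
      exact mul_le_mul_of_nonneg_left (d.g'_le n _) (d.del_pos n).le)
  simpa using h

/-! ### The time-change function -/

/-- the time-change function -/
noncomputable def alp (x : M) : ℝ := 1 + ∑' n, d.del n * d.g' n x

theorem term_le (n : ℕ) (x : M) : ‖d.del n * d.g' n x‖ ≤ d.del n * d.K n := by
  rw [Real.norm_eq_abs, abs_mul, abs_of_pos (d.del_pos n)]
  exact mul_le_mul_of_nonneg_left (d.g'_le n _) (d.del_pos n).le

theorem summable_term (x : M) : Summable fun n => d.del n * d.g' n x :=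
  Summable.of_norm_bounded d.summable_del_K fun n => d.term_le n x

theorem alp_cont : Continuous d.alp :=
  continuous_const.add (continuous_tsum (fun n => continuous_const.mul (d.g'_cont n))
    d.summable_del_K fun n x => d.term_le n x)

theorem alp_near (x : M) : |d.alp x - 1| ≤ 1 / 4 := by
  have : d.alp x - 1 = ∑' n, d.del n * d.g' n x := by unfold alp; ring
  rw [this]
  refine le_trans ?_ d.tsum_del_K
  have := tsum_of_norm_bounded d.summable_del_K.hasSum (fun n => d.term_le n x)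
  simpa using this

theorem alp_ge (x : M) : 3 / 4 ≤ d.alp x := by
  have := abs_le.1 (d.alp_near x)
  linarith [this.1]

theorem alp_le (x : M) : d.alp x ≤ 5 / 4 := by
  have := abs_le.1 (d.alp_near x)
  linarith [this.2]

theorem alp_pos (x : M) : 0 < d.alp x := lt_of_lt_of_le (by norm_num) (d.alp_ge x)

/-- the clock -/
noncomputable def tau (T : ℝ) (x : M) : ℝ := ∫ s in (0:ℝ)..T, d.alp (phi d.th s x)

theorem cont_alp_phi (x : M) : Continuous fun s => d.alp (phi d.th s x) :=
  d.alp_cont.comp ((continuous_phi d.th).comp (continuous_id.prodMk continuous_const))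

theorem tau_hasSum (T : ℝ) (x : M) :
    HasSum (fun n => d.g n (phi d.th T x) - d.g n x) (d.tau T x - T) := by
  have h1 : HasSum (fun n => ∫ s in (0:ℝ)..T, d.del n * d.g' n (phi d.th s x))
      (∫ s in (0:ℝ)..T, (∑' n, d.del n * d.g' n (phi d.th s x))) := by
    refine intervalIntegral.hasSum_integral_of_dominated_convergence
      (fun n _ => d.del n * d.K n) (fun n => ?_) (fun n => ?_) ?_ ?_ ?_
    · exact (continuous_const.mul ((d.g'_cont n).comp ((continuous_phi d.th).comp
        (continuous_id.prodMk continuous_const)))).aestronglyMeasurable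
    · exact Eventually.of_forall fun s _ => d.term_le n _
    · exact Eventually.of_forall fun s _ => d.summable_del_K
    · exact intervalIntegrable_const
    · exact Eventually.of_forall fun s _ => (d.summable_term _).hasSum
  have h2 : ∫ s in (0:ℝ)..T, (∑' n, d.del n * d.g' n (phi d.th s x)) = d.tau T x - T := by
    have e : ∀ s, (∑' n, d.del n * d.g' n (phi d.th s x)) = d.alp (phi d.th s x) - 1 := by
      intro s; unfold alp; ring
    simp only [e]
    rw [intervalIntegral.integral_sub ((d.cont_alp_phi x).intervalIntegrable _ _)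
      intervalIntegrable_const]
    simp [tau]
  rw [h2] at h1
  simp only [d.int_g'] at h1
  exact h1

/-! ### Smoothness -/

theorem alp_mk (x y z : ℝ) : d.alp (HN.mk (pt x y z)) =
    1 + ∑' n, d.del n * deriv (G n) (d.p n * x + d.r n * y) := by
  unfold alp
  congr 1
  refine tsum_congr fun n => ?_
  rw [d.g'_of_cc (chi_mk _ _ _)]
  rfl

/-- the linear form -/
noncomputable def lin (p r : ℝ) : (ℝ × ℝ × ℝ) →L[ℝ] ℝ :=
  p • ContinuousLinearMap.fst ℝ ℝ (ℝ × ℝ) +
    r • (ContinuousLinearMap.fst ℝ ℝ ℝ).comp (ContinuousLinearMap.snd ℝ ℝ (ℝ × ℝ))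

theorem lin_apply (p r : ℝ) (q : ℝ × ℝ × ℝ) : lin p r q = p * q.1 + r * q.2.1 := rfl

theorem lin_norm (p r : ℝ) : ‖lin p r‖ ≤ |p| + |r| + 1 := by
  refine ContinuousLinearMap.opNorm_le_bound _ (by positivity) fun q => ?_
  rw [lin_apply, Real.norm_eq_abs]
  have h := norm_le3 (le_refl ‖q‖)
  calc |p * q.1 + r * q.2.1| ≤ |p| * |q.1| + |r| * |q.2.1| := by
        rw [← abs_mul, ← abs_mul]; exact abs_add_le _ _
    _ ≤ |p| * ‖q‖ + |r| * ‖q‖ := add_le_add
        (mul_le_mul_of_nonneg_left h.1 (abs_nonneg _))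
        (mul_le_mul_of_nonneg_left h.2.1 (abs_nonneg _))
    _ ≤ (|p| + |r| + 1) * ‖q‖ := by nlinarith [norm_nonneg q]

theorem contDiff_alp : ContDiff ℝ (⊤ : ℕ∞) (fun q : ℝ × ℝ × ℝ => d.alp (HN.mk (pt q.1 q.2.1 q.2.2))) := by
  have h0 : (fun q : ℝ × ℝ × ℝ => d.alp (HN.mk (pt q.1 q.2.1 q.2.2))) = fun q =>
      1 + ∑' n, d.del n * (deriv (G n) ∘ lin (d.p n) (d.r n)) q := by
    funext q
    rw [d.alp_mk]
    rfl
  rw [h0]
  refine contDiff_const.add ?_
  have hG : ∀ n, ContDiff ℝ (⊤ : ℕ∞) (deriv (G n)) := fun n => by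
    have := (contDiff_infty_iff_deriv (f := G n)).1 (G_contDiff n)
    exact this.2
  have hs : Summable fun n : ℕ => ((1:ℝ) / 2) ^ (n + 3) := by
    simp only [pow_add]
    exact summable_geometric_two.mul_right _
  refine contDiff_tsum_of_eventually (v := fun _ n => (1 / 2) ^ (n + 3)) (fun n => ?_)
    (fun k _ => hs) (fun k _ => ?_)
  · exact contDiff_const.mul ((hG n).comp (lin (d.p n) (d.r n)).contDiff)
  · rw [Nat.cofinite_eq_atTop]
    filter_upwards [eventually_ge_atTop k] with n hn q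
    have e1 : iteratedFDeriv ℝ k (fun q => d.del n * (deriv (G n) ∘ lin (d.p n) (d.r n)) q) q =
        d.del n • iteratedFDeriv ℝ k (deriv (G n) ∘ lin (d.p n) (d.r n)) q := by
      have := iteratedFDeriv_const_smul_apply (𝕜 := ℝ) (i := k) (a := d.del n)
        (f := deriv (G n) ∘ lin (d.p n) (d.r n)) (x := q)
        (((hG n).comp (lin (d.p n) (d.r n)).contDiff).contDiffAt.of_le (by exact_mod_cast le_top))
      exact this
    rw [e1, norm_smul, Real.norm_eq_abs, abs_of_pos (d.del_pos n)]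
    rw [(lin (d.p n) (d.r n)).iteratedFDeriv_comp_right (hG n) q (by exact_mod_cast le_top)]
    have h1 := ContinuousMultilinearMap.norm_compContinuousLinearMap_le
      (iteratedFDeriv ℝ k (deriv (G n)) (lin (d.p n) (d.r n) q))
      (fun _ : Fin k => lin (d.p n) (d.r n))
    rw [Finset.prod_const, Finset.card_univ, Fintype.card_fin,
      norm_iteratedFDeriv_eq_norm_iteratedDeriv] at h1
    have h2 : ‖iteratedDeriv k (deriv (G n)) (lin (d.p n) (d.r n) q)‖ ≤ d.K n := by
      have := d.hK n (k + 1) (by omega) (lin (d.p n) (d.r n) q)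
      rwa [iteratedDeriv_succ'] at this
    have h3 : ‖lin (d.p n) (d.r n)‖ ^ k ≤ (|(d.p n : ℝ)| + |(d.r n : ℝ)| + 1) ^ n := by
      have h4 : ‖lin (d.p n) (d.r n)‖ ^ k ≤ (|(d.p n : ℝ)| + |(d.r n : ℝ)| + 1) ^ k :=
        pow_le_pow_left₀ (norm_nonneg _) (lin_norm _ _) k
      exact h4.trans (pow_le_pow_right₀
        (by linarith [abs_nonneg (d.p n : ℝ), abs_nonneg (d.r n : ℝ)]) hn)
    calc d.del n * ‖(iteratedFDeriv ℝ k (deriv (G n)) (lin (d.p n) (d.r n) q)
          ).compContinuousLinearMap fun _ : Fin k => lin (d.p n) (d.r n)‖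
        ≤ d.del n * (d.K n * (|(d.p n : ℝ)| + |(d.r n : ℝ)| + 1) ^ n) := by
          refine mul_le_mul_of_nonneg_left (h1.trans ?_) (d.del_pos n).le
          exact mul_le_mul h2 h3 (by positivity) (d.K_pos n).le
      _ = (d.p n + d.r n * d.th) * d.K n * (|(d.p n : ℝ)| + |(d.r n : ℝ)| + 1) ^ n := by
          unfold del; ring
      _ ≤ (1 / 2) ^ (n + 3) := d.hsmall n

end D

end Pool.Agent.X189.HN
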