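import Mathlib

set_option autoImplicit false

/-!
The Heisenberg group `ℝ³`, its integer lattice, the nilmanifold `M = Γ \ G` and its Haar measure.
-/

namespace Pool.Agent.X189.HN

open MeasureTheory Set Filter Topology
open scoped ENNReal

/-- The real Heisenberg group; `(x, y, z)` is the matrix with rows `(1, x, z)`, `(0, 1, y)`,
`(0, 0, 1)`. -/
def Heis : Type := ℝ × ℝ × ℝ

namespace Heis

noncomputable instance : TopologicalSpace Heis := inferInstanceAs (TopologicalSpace (ℝ × ℝ × ℝ))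
noncomputable instance : MeasurableSpace Heis := inferInstanceAs (MeasurableSpace (ℝ × ℝ × ℝ))
noncomputable instance : BorelSpace Heis := inferInstanceAs (BorelSpace (ℝ × ℝ × ℝ))
noncomputable instance : MeasureSpace Heis := inferInstanceAs (MeasureSpace (ℝ × ℝ × ℝ))
instance : T2Space Heis := inferInstanceAs (T2Space (ℝ × ℝ × ℝ))
instance : LocallyCompactSpace Heis := inferInstanceAs (LocallyCompactSpace (ℝ × ℝ × ℝ))
instance : SecondCountableTopology Heis :=
  inferInstanceAs (SecondCountableTopology (ℝ × ℝ × ℝ))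
instance : SigmaFinite (volume : Measure Heis) :=
  inferInstanceAs (SigmaFinite (volume : Measure (ℝ × ℝ × ℝ)))

/-- Matrix multiplication. -/
noncomputable instance : Mul Heis :=
  ⟨fun g h => ((g.1 + h.1, g.2.1 + h.2.1, g.2.2 + h.2.2 + g.1 * h.2.1) : ℝ × ℝ × ℝ)⟩
noncomputable instance : One Heis := ⟨((0, 0, 0) : ℝ × ℝ × ℝ)⟩
noncomputable instance : Inv Heis := ⟨fun g => ((-g.1, -g.2.1, -g.2.2 + g.1 * g.2.1) : ℝ × ℝ × ℝ)⟩

theorem mul_def (g h : Heis) :
    g * h = ((g.1 + h.1, g.2.1 + h.2.1, g.2.2 + h.2.2 + g.1 * h.2.1) : ℝ × ℝ × ℝ) := rfl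
@[simp] theorem mul_x (g h : Heis) : (g * h).1 = g.1 + h.1 := rfl
@[simp] theorem mul_y (g h : Heis) : (g * h).2.1 = g.2.1 + h.2.1 := rfl
@[simp] theorem mul_z (g h : Heis) : (g * h).2.2 = g.2.2 + h.2.2 + g.1 * h.2.1 := rfl
@[simp] theorem one_x : (1 : Heis).1 = 0 := rfl
@[simp] theorem one_y : (1 : Heis).2.1 = 0 := rfl
@[simp] theorem one_z : (1 : Heis).2.2 = 0 := rfl
@[simp] theorem inv_x (g : Heis) : (g⁻¹).1 = -g.1 := rfl
@[simp] theorem inv_y (g : Heis) : (g⁻¹).2.1 = -g.2.1 := rfl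
@[simp] theorem inv_z (g : Heis) : (g⁻¹).2.2 = -g.2.2 + g.1 * g.2.1 := rfl

theorem ext' {g h : Heis} (h1 : g.1 = h.1) (h2 : g.2.1 = h.2.1) (h3 : g.2.2 = h.2.2) : g = h :=
  Prod.ext h1 (Prod.ext h2 h3)

noncomputable instance : Group Heis :=
  Group.ofLeftAxioms (by intro g h l; apply ext' <;> simp <;> ring)
    (by intro g; apply ext' <;> simp) (by intro g; apply ext' <;> simp)

end Heis

open Heis

/-- The point with given coordinates. -/
def pt (x y z : ℝ) : Heis := ((x, y, z) : ℝ × ℝ × ℝ)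

@[simp] theorem pt_x (x y z : ℝ) : (pt x y z).1 = x := rfl
@[simp] theorem pt_y (x y z : ℝ) : (pt x y z).2.1 = y := rfl
@[simp] theorem pt_z (x y z : ℝ) : (pt x y z).2.2 = z := rfl

/-- The integer lattice `Γ`. -/
noncomputable def Gam : Subgroup Heis where
  carrier := {g | ∃ a b c : ℤ, g = pt a b c}
  mul_mem' := by
    rintro _ _ ⟨a, b, c, rfl⟩ ⟨a', b', c', rfl⟩
    refine ⟨a + a', b + b', c + c' + a * b', ?_⟩
    apply Heis.ext' <;> simp
  one_mem' := ⟨0, 0, 0, by apply Heis.ext' <;> simp⟩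
  inv_mem' := by
    rintro _ ⟨a, b, c, rfl⟩
    refine ⟨-a, -b, -c + a * b, ?_⟩
    apply Heis.ext' <;> simp

theorem smul_eq (γ : Gam) (g : Heis) : γ • g = (γ : Heis) * g := rfl

/-- The Heisenberg nilmanifold `Γ \ G` (orbits of left multiplication by `Γ`). -/
def M : Type := MulAction.orbitRel.Quotient Gam Heis

noncomputable instance : TopologicalSpace M :=
  inferInstanceAs (TopologicalSpace (Quotient (MulAction.orbitRel Gam Heis)))
noncomputable instance : MeasurableSpace M := borel M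
noncomputable instance : BorelSpace M := ⟨rfl⟩

/-- The projection `G → Γ \ G`. -/
noncomputable def mk (g : Heis) : M := Quotient.mk (MulAction.orbitRel Gam Heis) g

theorem mk_surj : Function.Surjective mk := Quotient.mk_surjective

theorem continuous_mk : Continuous mk := continuous_quot_mk

theorem mk_eq_iff {g h : Heis} : mk g = mk h ↔ ∃ a b c : ℤ, pt a b c * h = g := by
  have h1 : mk g = mk h ↔ (MulAction.orbitRel Gam Heis) g h := Quotient.eq
  rw [h1, MulAction.orbitRel_apply, MulAction.mem_orbit_iff]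
  constructor
  · rintro ⟨⟨γ, a, b, c, rfl⟩, hγ⟩
    exact ⟨a, b, c, hγ⟩
  · rintro ⟨a, b, c, hγ⟩
    exact ⟨⟨pt a b c, a, b, c, rfl⟩, hγ⟩

theorem mk_left (a b c : ℤ) (g : Heis) : mk (pt a b c * g) = mk g :=
  mk_eq_iff.2 ⟨a, b, c, rfl⟩

theorem continuous_mul_left (h : Heis) : Continuous fun g : Heis => h * g := by
  show Continuous fun g : ℝ × ℝ × ℝ =>
    ((h.1 + g.1, h.2.1 + g.2.1, h.2.2 + g.2.2 + h.1 * g.2.1) : ℝ × ℝ × ℝ)
  fun_prop

theorem continuous_mul_heis : Continuous fun q : Heis × Heis => q.1 * q.2 := by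
  show Continuous fun q : (ℝ × ℝ × ℝ) × (ℝ × ℝ × ℝ) =>
    ((q.1.1 + q.2.1, q.1.2.1 + q.2.2.1, q.1.2.2 + q.2.2.2 + q.1.1 * q.2.2.1) : ℝ × ℝ × ℝ)
  fun_prop

instance : ContinuousConstSMul Gam Heis := ⟨fun γ => continuous_mul_left γ⟩

instance : Countable Gam := by
  have : Function.Surjective (fun q : ℤ × ℤ × ℤ => (⟨pt q.1 q.2.1 q.2.2, q.1, q.2.1, q.2.2, rfl⟩ :
      Gam)) := by
    rintro ⟨_, a, b, c, rfl⟩
    exact ⟨(a, b, c), rfl⟩
  exact this.countable

theorem finite_of_bdd {s : Set Gam} (R : ℝ) (h : ∀ γ ∈ s, |(γ : Heis).1| ≤ R ∧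
    |(γ : Heis).2.1| ≤ R ∧ |(γ : Heis).2.2| ≤ R) : s.Finite := by
  have hfin : ((Set.Icc (-⌈R⌉) ⌈R⌉ ×ˢ (Set.Icc (-⌈R⌉) ⌈R⌉ ×ˢ Set.Icc (-⌈R⌉) ⌈R⌉)) :
      Set (ℤ × ℤ × ℤ)).Finite :=
    (Set.finite_Icc _ _).prod ((Set.finite_Icc _ _).prod (Set.finite_Icc _ _))
  refine (hfin.image (fun q : ℤ × ℤ × ℤ =>
    (⟨pt q.1 q.2.1 q.2.2, q.1, q.2.1, q.2.2, rfl⟩ : Gam))).subset ?_
  rintro ⟨_, a, b, c, rfl⟩ hg
  obtain ⟨h1, h2, h3⟩ := h _ hg
  have hR := Int.le_ceil R
  have key : ∀ n : ℤ, |(n : ℝ)| ≤ R → n ∈ Set.Icc (-⌈R⌉) ⌈R⌉ := by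
    intro n hn
    rw [abs_le] at hn
    constructor
    · have : ((-⌈R⌉ : ℤ) : ℝ) ≤ n := by push_cast; linarith
      exact_mod_cast this
    · have : (n : ℝ) ≤ ⌈R⌉ := by linarith
      exact_mod_cast this
  exact ⟨(a, b, c), ⟨key a h1, key b h2, key c h3⟩, rfl⟩

theorem norm_le3 {R : ℝ} {p : ℝ × ℝ × ℝ} (h : ‖p‖ ≤ R) : |p.1| ≤ R ∧ |p.2.1| ≤ R ∧ |p.2.2| ≤ R := by
  rw [Prod.norm_def, max_le_iff, Prod.norm_def, max_le_iff] at h
  exact h

instance : ProperlyDiscontinuousSMul Gam Heis where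
  finite_disjoint_inter_image := by
    intro K L hK hL
    obtain ⟨R, hR⟩ : ∃ R : ℝ, ∀ p ∈ K, |p.1| ≤ R ∧ |p.2.1| ≤ R ∧ |p.2.2| ≤ R := by
      obtain ⟨R, hR⟩ := (IsCompact.isBounded (α := ℝ × ℝ × ℝ) hK).exists_norm_le
      exact ⟨R, fun p hp => norm_le3 (hR p hp)⟩
    obtain ⟨S, hS⟩ : ∃ R : ℝ, ∀ p ∈ L, |p.1| ≤ R ∧ |p.2.1| ≤ R ∧ |p.2.2| ≤ R := by
      obtain ⟨R, hR⟩ := (IsCompact.isBounded (α := ℝ × ℝ × ℝ) hL).exists_norm_le
      exact ⟨R, fun p hp => norm_le3 (hR p hp)⟩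
    apply finite_of_bdd (R + S + (R + S) * R)
    rintro γ ⟨q, ⟨p, hp, rfl⟩, hq⟩
    obtain ⟨h11, h12, h13⟩ := hR p hp
    obtain ⟨h21, h22, h23⟩ := hS _ hq
    change |(γ : Heis).1 + p.1| ≤ S at h21
    change |(γ : Heis).2.1 + p.2.1| ≤ S at h22
    change |(γ : Heis).2.2 + p.2.2 + (γ : Heis).1 * p.2.1| ≤ S at h23
    have hR0 : 0 ≤ R := (abs_nonneg _).trans h11
    have hS0 : 0 ≤ S := (abs_nonneg _).trans h21
    have ha : |(γ : Heis).1| ≤ R + S := by
      have : (γ : Heis).1 = ((γ : Heis).1 + p.1) - p.1 := by ring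
      rw [this]
      exact (abs_sub _ _).trans (by linarith)
    have hb : |(γ : Heis).2.1| ≤ R + S := by
      have : (γ : Heis).2.1 = ((γ : Heis).2.1 + p.2.1) - p.2.1 := by ring
      rw [this]
      exact (abs_sub _ _).trans (by linarith)
    have hprod : |(γ : Heis).1 * p.2.1| ≤ (R + S) * R := by
      rw [abs_mul]
      exact mul_le_mul ha h12 (abs_nonneg _) (by positivity)
    have hc : |(γ : Heis).2.2| ≤ R + S + (R + S) * R := by
      have : (γ : Heis).2.2 = ((γ : Heis).2.2 + p.2.2 + (γ : Heis).1 * p.2.1) -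
        (p.2.2 + (γ : Heis).1 * p.2.1) := by ring
      rw [this]
      refine (abs_sub _ _).trans ?_
      have := abs_add_le p.2.2 ((γ : Heis).1 * p.2.1)
      linarith
    have h0 : 0 ≤ (R + S) * R := by positivity
    exact ⟨by linarith, by linarith, hc⟩

instance : T2Space M :=
  inferInstanceAs (T2Space (Quotient (MulAction.orbitRel Gam Heis)))

instance : SecondCountableTopology M :=
  ContinuousConstSMul.secondCountableTopology (T := Heis) (Γ := Gam)

/-- every point is equivalent to a point of the unit cube -/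
theorem exists_cube (p : Heis) : ∃ a b c : ℤ, (pt a b c * p).1 ∈ Ico (0 : ℝ) 1 ∧
    (pt a b c * p).2.1 ∈ Ico (0 : ℝ) 1 ∧ (pt a b c * p).2.2 ∈ Ico (0 : ℝ) 1 := by
  refine ⟨-⌊p.1⌋, -⌊p.2.1⌋, -⌊p.2.2 + (-⌊p.1⌋ : ℤ) * p.2.1⌋, ?_, ?_, ?_⟩
  · simp only [mul_x, pt_x, mem_Ico]
    push_cast
    exact ⟨by linarith [Int.floor_le p.1], by linarith [Int.lt_floor_add_one p.1]⟩
  · simp only [mul_y, pt_y, mem_Ico]
    push_cast
    exact ⟨by linarith [Int.floor_le p.2.1], by linarith [Int.lt_floor_add_one p.2.1]⟩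
  · simp only [mul_z, pt_z, pt_x, mem_Ico]
    set w : ℝ := p.2.2 + ((-⌊p.1⌋ : ℤ) : ℝ) * p.2.1 with hw
    have h1 := Int.floor_le w
    have h2 := Int.lt_floor_add_one w
    rw [Int.cast_neg (⌊w⌋)]
    constructor
    · have : -(⌊w⌋ : ℝ) + p.2.2 + ((-⌊p.1⌋ : ℤ) : ℝ) * p.2.1 = w - ⌊w⌋ := by rw [hw]; ring
      rw [this]; linarith
    · have : -(⌊w⌋ : ℝ) + p.2.2 + ((-⌊p.1⌋ : ℤ) : ℝ) * p.2.1 = w - ⌊w⌋ := by rw [hw]; ring
      rw [this]; linarith

instance : CompactSpace M := by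
  have hK : IsCompact ((Icc (0 : ℝ) 1 ×ˢ (Icc (0 : ℝ) 1 ×ˢ Icc (0 : ℝ) 1)) : Set (ℝ × ℝ × ℝ)) :=
    isCompact_Icc.prod (isCompact_Icc.prod isCompact_Icc)
  have h := IsCompact.image (X := Heis) (f := mk) hK continuous_mk
  have h2 : mk '' ((Icc (0 : ℝ) 1 ×ˢ (Icc (0 : ℝ) 1 ×ˢ Icc (0 : ℝ) 1)) : Set (ℝ × ℝ × ℝ)) =
      univ := by
    rw [eq_univ_iff_forall]
    intro x
    obtain ⟨p, rfl⟩ := mk_surj x
    obtain ⟨a, b, c, h1, h2, h3⟩ := exists_cube p
    exact ⟨pt a b c * p, ⟨Ico_subset_Icc_self h1, Ico_subset_Icc_self h2,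
      Ico_subset_Icc_self h3⟩, mk_left _ _ _ _⟩
  rw [h2] at h
  exact isCompact_univ_iff.1 h

instance : TopologicalSpace.MetrizableSpace M :=
  TopologicalSpace.metrizableSpace_of_t3_secondCountable M

/-! ### Right multiplication -/

/-- Right translation by `h` on `Γ \ G`. -/
noncomputable def R (h : Heis) : M → M :=
  Quotient.map (sa := MulAction.orbitRel Gam Heis) (sb := MulAction.orbitRel Gam Heis)
    (fun g => g * h) (by
      intro g g' hg
      obtain ⟨γ, hγ⟩ := hg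
      exact ⟨γ, by rw [← hγ]; exact (mul_assoc (γ : Heis) g' h).symm⟩)

@[simp] theorem R_mk (h g : Heis) : R h (mk g) = mk (g * h) := rfl

theorem R_R (h k : Heis) (x : M) : R h (R k x) = R (k * h) x := by
  obtain ⟨g, rfl⟩ := mk_surj x
  simp [mul_assoc]

theorem R_one (x : M) : R 1 x = x := by
  obtain ⟨g, rfl⟩ := mk_surj x
  simp

theorem continuous_act : Continuous fun q : Heis × M => R q.1 q.2 := by
  have hq : IsOpenQuotientMap mk :=
    MulAction.isOpenQuotientMap_quotientMk (Γ := Gam) (T := Heis)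
  have h1 : IsOpenQuotientMap (Prod.map (id : Heis → Heis) mk) :=
    IsOpenQuotientMap.id.prodMap hq
  rw [h1.isQuotientMap.continuous_iff]
  show Continuous fun q : Heis × Heis => mk (q.2 * q.1)
  exact continuous_mk.comp (continuous_mul_heis.comp (continuous_snd.prodMk continuous_fst))

theorem continuous_R (h : Heis) : Continuous (R h) :=
  continuous_act.comp (continuous_const.prodMk continuous_id)

/-! ### Lebesgue measure is bi-invariant -/

theorem mp_right (h : Heis) : MeasurePreserving (fun g : Heis => g * h) volume volume := by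
  have h2 : Measurable (Function.uncurry fun (x : ℝ) (q : ℝ × ℝ) =>
      ((q.1 + h.2.1, q.2 + h.2.2 + x * h.2.1) : ℝ × ℝ)) := by
    unfold Function.uncurry
    fun_prop
  have h1 : MeasurePreserving (fun x : ℝ => x + h.1) volume volume :=
    measurePreserving_add_right volume h.1
  have key := MeasurePreserving.skew_product h1 h2 (μc := (volume : Measure (ℝ × ℝ)))
    (μd := (volume : Measure (ℝ × ℝ))) (Eventually.of_forall fun x => by
      have := (measurePreserving_add_right (volume : Measure (ℝ × ℝ))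
        ((h.2.1, h.2.2 + x * h.2.1) : ℝ × ℝ)).map_eq
      convert this using 2
      funext q
      ext
      · simp
      · simp only [Prod.snd_add]
        ring)
  exact key

theorem mp_left (h : Heis) : MeasurePreserving (fun g : Heis => h * g) volume volume := by
  have h2 : Measurable (Function.uncurry fun (x : ℝ) (q : ℝ × ℝ) =>
      ((h.2.1 + q.1, h.2.2 + q.2 + h.1 * q.1) : ℝ × ℝ)) := by
    unfold Function.uncurry
    fun_prop
  have h1 : MeasurePreserving (fun x : ℝ => h.1 + x) volume volume :=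
    measurePreserving_add_left volume h.1
  have h3 : MeasurePreserving (fun q : ℝ × ℝ =>
      ((h.2.1 + q.1, h.2.2 + q.2 + h.1 * q.1) : ℝ × ℝ)) volume volume := by
    have h4 : Measurable (Function.uncurry fun (y : ℝ) (z : ℝ) =>
        (h.2.2 + z + h.1 * y : ℝ)) := by
      unfold Function.uncurry
      fun_prop
    exact MeasurePreserving.skew_product
      (measurePreserving_add_left volume h.2.1) h4 (μc := (volume : Measure ℝ))
      (μd := (volume : Measure ℝ)) (Eventually.of_forall fun y => by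
        have := (measurePreserving_add_left (volume : Measure ℝ) (h.2.2 + h.1 * y)).map_eq
        convert this using 2
        funext z
        ring)
  exact MeasurePreserving.skew_product h1 h2 (μc := (volume : Measure (ℝ × ℝ)))
    (μd := (volume : Measure (ℝ × ℝ))) (Eventually.of_forall fun x => h3.map_eq)

/-- The unit cube. -/
def cube : Set Heis := (Ico (0 : ℝ) 1 ×ˢ (Ico (0 : ℝ) 1 ×ˢ Ico (0 : ℝ) 1) : Set (ℝ × ℝ × ℝ))

theorem mem_cube {g : Heis} : g ∈ cube ↔ g.1 ∈ Ico (0 : ℝ) 1 ∧ g.2.1 ∈ Ico (0 : ℝ) 1 ∧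
    g.2.2 ∈ Ico (0 : ℝ) 1 := Iff.rfl

theorem meas_cube : MeasurableSet cube :=
  measurableSet_Ico.prod (measurableSet_Ico.prod measurableSet_Ico)

theorem vol_cube : volume cube = 1 := by
  show ((volume : Measure ℝ).prod ((volume : Measure ℝ).prod (volume : Measure ℝ)))
    (Ico (0 : ℝ) 1 ×ˢ (Ico (0 : ℝ) 1 ×ˢ Ico (0 : ℝ) 1)) = 1
  rw [Measure.prod_prod, Measure.prod_prod]
  simp

/-- The normalised Haar measure of `Γ \ G`: the image of Lebesgue measure on the unit cube. -/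
noncomputable def mu : Measure M := (volume.restrict cube).map mk

instance : IsProbabilityMeasure mu := by
  refine ⟨?_⟩
  rw [mu, Measure.map_apply continuous_mk.measurable MeasurableSet.univ, preimage_univ,
    Measure.restrict_apply_univ, vol_cube]

theorem int_eq_zero {a : ℤ} {u : ℝ} (hu : u ∈ Ico (0 : ℝ) 1) (hv : (a : ℝ) + u ∈ Ico (0 : ℝ) 1) :
    a = 0 := by
  have h1 : (-1 : ℝ) < a := by linarith [hu.2, hv.1]
  have h2 : (a : ℝ) < 1 := by linarith [hu.1, hv.2]
  have h3 : (-1 : ℤ) < a := by exact_mod_cast h1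
  have h4 : a < (1 : ℤ) := by exact_mod_cast h2
  omega

noncomputable instance : MeasurableConstSMul Gam Heis :=
  ⟨fun γ => (continuous_mul_left (γ : Heis)).measurable⟩

instance : SMulInvariantMeasure Gam Heis volume :=
  ⟨fun γ _ hs => (mp_left (γ : Heis)).measure_preimage hs.nullMeasurableSet⟩

theorem fund : IsFundamentalDomain Gam cube volume where
  nullMeasurableSet := meas_cube.nullMeasurableSet
  ae_covers := Eventually.of_forall fun p => by
    obtain ⟨a, b, c, h⟩ := exists_cube p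
    exact ⟨⟨pt a b c, a, b, c, rfl⟩, h⟩
  aedisjoint := by
    intro γ γ' hne
    refine Disjoint.aedisjoint ?_
    rw [Set.disjoint_left]
    rintro _ ⟨p, hp, rfl⟩ ⟨q, hq, hpq⟩
    apply hne
    have h1 : ((γ⁻¹ * γ' : Gam) : Heis) * q = p := by
      have : γ' • q = γ • p := hpq
      have h2 : (γ' : Heis) * q = (γ : Heis) * p := this
      rw [Subgroup.coe_mul, Subgroup.coe_inv, mul_assoc, h2, inv_mul_cancel_left]
    obtain ⟨a, b, c, habc⟩ := (γ⁻¹ * γ').2
    rw [habc] at h1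
    rw [mem_cube] at hp hq
    rw [← h1] at hp
    have ha : a = 0 := int_eq_zero hq.1 hp.1
    have hb : b = 0 := int_eq_zero hq.2.1 hp.2.1
    have hc : c = 0 := by
      have := hp.2.2
      rw [mul_z, pt_x, ha] at this
      simp only [Int.cast_zero, zero_mul, add_zero] at this
      exact int_eq_zero hq.2.2 this
    have h3 : γ⁻¹ * γ' = 1 := by
      apply Subtype.ext
      rw [habc, ha, hb, hc]
      simp
      rfl
    exact (inv_mul_eq_one.1 h3)

theorem mu_R (h : Heis) : MeasurePreserving (R h) mu mu := by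
  refine ⟨(continuous_R h).measurable, ?_⟩
  ext A hA
  have hRm := (continuous_R h).measurable
  rw [Measure.map_apply hRm hA, mu,
    Measure.map_apply continuous_mk.measurable (hRm hA),
    Measure.map_apply continuous_mk.measurable hA,
    Measure.restrict_apply (continuous_mk.measurable (hRm hA)),
    Measure.restrict_apply (continuous_mk.measurable hA)]
  -- the translated cube
  set e : Heis ≃ Heis := Equiv.mulRight h with he
  have hfd : IsFundamentalDomain Gam (e '' cube) volume := by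
    refine fund.image_of_equiv e ?_ (Equiv.refl _) ?_
    · have : (e.symm : Heis → Heis) = fun g => g * h⁻¹ := by
        funext g; rfl
      rw [this]
      exact (mp_right h⁻¹).quasiMeasurePreserving
    · intro γ g
      show ((γ : Heis) * g) * h = (γ : Heis) * (g * h)
      rw [mul_assoc]
  have hmA : MeasurableSet (mk ⁻¹' A) := continuous_mk.measurable hA
  have hinv : ∀ γ : Gam, (fun x => γ • x) ⁻¹' (mk ⁻¹' A) = mk ⁻¹' A := by
    rintro ⟨_, a, b, c, rfl⟩
    ext g
    show mk (pt a b c * g) ∈ A ↔ mk g ∈ A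
    rw [mk_left]
  rw [fund.measure_set_eq hfd hmA hinv, ← (mp_right h).measure_preimage
    (hmA.inter (by
      rw [Equiv.image_eq_preimage_symm]
      exact (mp_right h⁻¹).measurable meas_cube)).nullMeasurableSet]
  congr 1
  ext g
  simp only [mem_inter_iff, mem_preimage]
  constructor
  · rintro ⟨h1, h2⟩
    exact ⟨h1, g, h2, rfl⟩
  · rintro ⟨h1, h2⟩
    refine ⟨h1, ?_⟩
    obtain ⟨g', hg', hgg⟩ := h2
    have : g' = g := mul_right_cancel hgg
    rwa [← this]

end Pool.Agent.X189.HN
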