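import Mathlib

set_option autoImplicit false

/-!
The bump profiles and the Liouville frequency.
-/

namespace Pool.Agent.X189.HN

open Set Filter Topology

/-- the profile -/
noncomputable def G (n : ℕ) (v : ℝ) : ℝ :=
  4 ^ n * Real.smoothTransition (2 ^ n * Real.sin (2 * Real.pi * v))

theorem G_contDiff (n : ℕ) : ContDiff ℝ (⊤ : ℕ∞) (G n) := by
  unfold G
  refine contDiff_const.mul (Real.smoothTransition.contDiff.comp ?_)
  exact contDiff_const.mul (Real.contDiff_sin.comp (contDiff_const.mul contDiff_id))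

theorem G_periodic (n : ℕ) : Function.Periodic (G n) 1 := by
  intro v
  unfold G
  have : 2 * Real.pi * (v + 1) = 2 * Real.pi * v + 2 * Real.pi := by ring
  rw [this, Real.sin_add_two_pi]

theorem G_nonneg (n : ℕ) (v : ℝ) : 0 ≤ G n v :=
  mul_nonneg (by positivity) (Real.smoothTransition.nonneg _)

theorem G_le (n : ℕ) (v : ℝ) : G n v ≤ 4 ^ n := by
  unfold G
  have := Real.smoothTransition.le_one (2 ^ n * Real.sin (2 * Real.pi * v))
  have h4 : (0:ℝ) < 4 ^ n := by positivity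
  nlinarith

theorem G_one (n : ℕ) {v : ℝ} (h : 1 ≤ 2 ^ n * Real.sin (2 * Real.pi * v)) : G n v = 4 ^ n := by
  unfold G
  rw [Real.smoothTransition.one_of_one_le h, mul_one]

theorem G_zero (n : ℕ) {v : ℝ} (h : 2 ^ n * Real.sin (2 * Real.pi * v) ≤ 0) : G n v = 0 := by
  unfold G
  rw [Real.smoothTransition.zero_of_nonpos h, mul_zero]

theorem periodic_iter {f : ℝ → ℝ} (hf : Function.Periodic f 1) (i : ℕ) :
    Function.Periodic (iteratedDeriv i f) 1 := by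
  intro v
  have h1 := iteratedDeriv_comp_add_const (n := i) (f := f) (s := 1)
  have h2 : (fun z => f (z + 1)) = f := funext hf
  rw [h2] at h1
  exact (congrFun h1 v).symm

theorem iter_bound (n i : ℕ) : ∃ C : ℝ, ∀ v, ‖iteratedDeriv i (G n) v‖ ≤ C := by
  have hc : Continuous (iteratedDeriv i (G n)) :=
    (G_contDiff n).continuous_iteratedDeriv i (by exact_mod_cast le_top)
  have := (periodic_iter (G_periodic n) i).isBounded_of_continuous one_ne_zero hc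
  obtain ⟨C, hC⟩ := this.exists_norm_le
  exact ⟨C, fun v => hC _ ⟨v, rfl⟩⟩

theorem exists_K : ∃ K : ℕ → ℝ, ∀ n, 1 ≤ K n ∧ ∀ i ≤ n + 1, ∀ v,
    ‖iteratedDeriv i (G n) v‖ ≤ K n := by
  choose C hC using iter_bound
  refine ⟨fun n => 1 + ∑ i ∈ Finset.range (n + 2), |C n i|, fun n => ⟨?_, ?_⟩⟩
  · have : 0 ≤ ∑ i ∈ Finset.range (n + 2), |C n i| := Finset.sum_nonneg fun _ _ => abs_nonneg _
    linarith
  · intro i hi v
    have h1 : |C n i| ≤ ∑ i ∈ Finset.range (n + 2), |C n i| :=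
      Finset.single_le_sum (f := fun i => |C n i|) (fun _ _ => abs_nonneg _)
        (Finset.mem_range.2 (by omega))
    have h2 := (hC n i v).trans (le_abs_self _)
    linarith

theorem exists_seq (Φ : ℕ → ℕ → ℕ) : ∃ a : ℕ → ℕ, (∀ n, a n < a (n + 1)) ∧
    ∀ n, Φ n (a n) ≤ a (n + 1) := by
  refine ⟨fun n => Nat.rec 0 (fun n m => max (m + 1) (Φ n m)) n, fun n => ?_, fun n => ?_⟩
  · exact lt_of_lt_of_le (Nat.lt_succ_self _) (le_max_left _ _)
  · exact le_max_right _ _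

theorem exists_data (K : ℕ → ℝ) (hK : ∀ n, 1 ≤ K n) : ∃ (θ : ℝ) (p r : ℕ → ℤ), ∀ n,
    0 < r n ∧ 0 < p n + r n * θ ∧
    (p n + r n * θ) * K n * (|(p n : ℝ)| + |(r n : ℝ)| + 1) ^ n ≤ (1 / 2) ^ (n + 3) ∧
    K (n + 1) * (p (n + 1) + r (n + 1) * θ) ≤ (1 / 2) ^ (n + 1) * (p n + r n * θ) := by
  -- the thresholds
  have hthr : ∀ n m : ℕ, ∃ N : ℕ, K n * 2 ^ (m + 1) * (((n + 1) * 2 ^ m + 2 ^ m + 1) ^ n) *
      2 ^ (n + 3) + K n * 2 ^ (2 * m + 1 + n) ≤ 2 ^ N := by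
    intro n m
    obtain ⟨N, hN⟩ := pow_unbounded_of_one_lt (K n * 2 ^ (m + 1) *
      (((n + 1) * 2 ^ m + 2 ^ m + 1) ^ n) * 2 ^ (n + 3) + K n * 2 ^ (2 * m + 1 + n) : ℝ)
      (one_lt_two)
    exact ⟨N, hN.le⟩
  choose Φ hΦ using hthr
  obtain ⟨a, ha1, ha2⟩ := exists_seq Φ
  have hmono : StrictMono a := strictMono_nat_of_lt_succ ha1
  have hak : ∀ k, k ≤ a k := fun k => hmono.le_apply
  have hadd : ∀ n k, a n + k ≤ a (n + k) := by
    intro n k
    induction k with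
    | zero => simp
    | succ k ih =>
      have := ha1 (n + k)
      have e : n + (k + 1) = n + k + 1 := by ring
      rw [e]
      omega
  have hsum : Summable fun k => ((1:ℝ) / 2) ^ a k := by
    refine Summable.of_nonneg_of_le (fun k => by positivity) (fun k => ?_)
      summable_geometric_two
    exact pow_le_pow_of_le_one (by norm_num) (by norm_num) (hak k)
  set θ : ℝ := ∑' k, ((1:ℝ) / 2) ^ a k with hθ
  set p : ℕ → ℤ := fun n => -∑ k ∈ Finset.range (n + 1), 2 ^ (a n - a k) with hp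
  set r : ℕ → ℤ := fun n => 2 ^ a n with hr
  -- the value of `δ`
  have hδ : ∀ n, (p n : ℝ) + r n * θ = 2 ^ a n * ∑' k, ((1:ℝ) / 2) ^ a (k + (n + 1)) := by
    intro n
    have h1 := hsum.sum_add_tsum_nat_add (n + 1)
    rw [← hθ] at h1
    rw [← h1, hp, hr]
    push_cast
    rw [mul_add, Finset.mul_sum]
    have h2 : ∀ k ∈ Finset.range (n + 1), (2:ℝ) ^ a n * (1 / 2) ^ a k = 2 ^ (a n - a k) := by
      intro k hk
      have hkn : a k ≤ a n := hmono.monotone (by have := Finset.mem_range.1 hk; omega)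
      have e : a n = (a n - a k) + a k := by omega
      have e2 : ((2:ℝ) ^ a k) * (1 / 2) ^ a k = 1 := by rw [← mul_pow]; norm_num
      calc (2:ℝ) ^ a n * (1 / 2) ^ a k = 2 ^ ((a n - a k) + a k) * (1 / 2) ^ a k := by rw [← e]
        _ = 2 ^ (a n - a k) * (((2:ℝ) ^ a k) * (1 / 2) ^ a k) := by rw [pow_add]; ring
        _ = 2 ^ (a n - a k) := by rw [e2, mul_one]
    rw [Finset.sum_congr rfl h2]
    ring
  have htail_le : ∀ n, ∑' k, ((1:ℝ) / 2) ^ a (k + (n + 1)) ≤ 2 * (1 / 2) ^ a (n + 1) := by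
    intro n
    have hs : Summable fun k => ((1:ℝ) / 2) ^ a (n + 1) * (1 / 2) ^ k :=
      summable_geometric_two.mul_left _
    have h1 : ∑' k, ((1:ℝ) / 2) ^ a (k + (n + 1)) ≤ ∑' k, ((1:ℝ) / 2) ^ a (n + 1) * (1 / 2) ^ k := by
      refine Summable.tsum_le_tsum (fun k => ?_) ((summable_nat_add_iff (n + 1)).2 hsum) hs
      rw [← pow_add]
      refine pow_le_pow_of_le_one (by norm_num) (by norm_num) ?_
      have := hadd (n + 1) k
      rw [add_comm k]
      exact this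
    rw [tsum_mul_left, tsum_geometric_two] at h1
    linarith
  have htail_ge : ∀ n, (1 / 2) ^ a (n + 1) ≤ ∑' k, ((1:ℝ) / 2) ^ a (k + (n + 1)) := by
    intro n
    have := ((summable_nat_add_iff (n + 1)).2 hsum).le_tsum 0 (fun _ _ => by positivity)
    simpa using this
  have hpow2 : ∀ m : ℕ, ((1:ℝ) / 2) ^ m * 2 ^ m = 1 := fun m => by
    rw [← mul_pow]; norm_num
  have hδle : ∀ n, (p n : ℝ) + r n * θ ≤ 2 ^ (a n + 1) * (1 / 2) ^ a (n + 1) := by
    intro n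
    rw [hδ, pow_succ]
    have := htail_le n
    have h0 : (0:ℝ) < 2 ^ a n := by positivity
    nlinarith
  have hδge : ∀ n, (1 / 2) ^ a (n + 1) ≤ (p n : ℝ) + r n * θ := by
    intro n
    rw [hδ]
    have h0 : (1:ℝ) ≤ 2 ^ a n := one_le_pow₀ one_le_two
    have h1 := htail_ge n
    have h2 : (0:ℝ) < (1 / 2) ^ a (n + 1) := by positivity
    nlinarith
  have hδpos : ∀ n, 0 < (p n : ℝ) + r n * θ := fun n =>
    lt_of_lt_of_le (by positivity) (hδge n)
  have hpabs : ∀ n, |(p n : ℝ)| ≤ (n + 1) * 2 ^ a n := by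
    intro n
    rw [hp]
    push_cast
    rw [abs_neg, abs_of_nonneg (Finset.sum_nonneg fun _ _ => by positivity)]
    refine (Finset.sum_le_card_nsmul _ _ ((2:ℝ) ^ a n) (fun k _ =>
      pow_le_pow_right₀ one_le_two (Nat.sub_le _ _))).trans ?_
    simp
  have hrabs : ∀ n, |(r n : ℝ)| = 2 ^ a n := by
    intro n
    rw [hr]
    push_cast
    rw [abs_of_pos (by positivity)]
  have hbase : ∀ n, (|(p n : ℝ)| + |(r n : ℝ)| + 1) ^ n ≤
      (((n + 1) * 2 ^ a n + 2 ^ a n + 1) ^ n : ℝ) := by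
    intro n
    refine pow_le_pow_left₀ (by positivity) ?_ n
    rw [hrabs]
    linarith [hpabs n]
  have hthr2 : ∀ n, K n * 2 ^ (a n + 1) * (((n + 1) * 2 ^ a n + 2 ^ a n + 1) ^ n) *
      2 ^ (n + 3) + K n * 2 ^ (2 * a n + 1 + n) ≤ (2:ℝ) ^ a (n + 1) := by
    intro n
    exact (hΦ n (a n)).trans (pow_le_pow_right₀ one_le_two (ha2 n))
  refine ⟨θ, p, r, fun n => ⟨?_, hδpos n, ?_, ?_⟩⟩
  · rw [hr]; positivity
  · have hK0 : 0 < K n := lt_of_lt_of_le one_pos (hK n)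
    have h1 : (p n + r n * θ) * K n * (|(p n : ℝ)| + |(r n : ℝ)| + 1) ^ n ≤
        (2 ^ (a n + 1) * (1 / 2) ^ a (n + 1)) * K n *
          (((n + 1) * 2 ^ a n + 2 ^ a n + 1) ^ n : ℝ) := by
      refine mul_le_mul (mul_le_mul_of_nonneg_right (hδle n) hK0.le) (hbase n) (by positivity)
        (by positivity)
    refine h1.trans ?_
    have h2 := hthr2 n
    have h3 : K n * 2 ^ (a n + 1) * (((n + 1) * 2 ^ a n + 2 ^ a n + 1) ^ n) *
      2 ^ (n + 3) ≤ (2:ℝ) ^ a (n + 1) := by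
      have : 0 ≤ K n * 2 ^ (2 * a n + 1 + n) := by positivity
      linarith
    set X : ℝ := (((n + 1) * 2 ^ a n + 2 ^ a n + 1) ^ n : ℝ)
    have h4 : (2 ^ (a n + 1) * (1 / 2) ^ a (n + 1)) * K n * X =
        ((1 / 2) ^ a (n + 1) * (1 / 2) ^ (n + 3)) *
          (K n * 2 ^ (a n + 1) * X * 2 ^ (n + 3)) := by
      have := hpow2 (n + 3)
      calc (2 ^ (a n + 1) * (1 / 2) ^ a (n + 1)) * K n * X =
          (2 ^ (a n + 1) * (1 / 2) ^ a (n + 1)) * K n * X * 1 := by ring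
        _ = (2 ^ (a n + 1) * (1 / 2) ^ a (n + 1)) * K n * X *
            ((1 / 2) ^ (n + 3) * 2 ^ (n + 3)) := by rw [this]
        _ = _ := by ring
    rw [h4]
    calc ((1 / 2) ^ a (n + 1) * (1 / 2) ^ (n + 3)) *
          (K n * 2 ^ (a n + 1) * X * 2 ^ (n + 3)) ≤
        ((1 / 2) ^ a (n + 1) * (1 / 2) ^ (n + 3)) * (2:ℝ) ^ a (n + 1) :=
          mul_le_mul_of_nonneg_left h3 (by positivity)
      _ = (1 / 2) ^ (n + 3) * ((1 / 2) ^ a (n + 1) * 2 ^ a (n + 1)) := by ring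
      _ = (1 / 2) ^ (n + 3) := by rw [hpow2, mul_one]
  · have hK0 : 0 < K (n + 1) := lt_of_lt_of_le one_pos (hK _)
    have h1 : K (n + 1) * (p (n + 1) + r (n + 1) * θ) ≤
        K (n + 1) * (2 ^ (a (n + 1) + 1) * (1 / 2) ^ a (n + 1 + 1)) :=
      mul_le_mul_of_nonneg_left (hδle (n + 1)) hK0.le
    have h2 : (1 / 2) ^ (n + 1) * (1 / 2) ^ a (n + 1) ≤
        ((1:ℝ) / 2) ^ (n + 1) * (p n + r n * θ) :=
      mul_le_mul_of_nonneg_left (hδge n) (by positivity)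
    refine h1.trans (le_trans ?_ h2)
    have h3 := hthr2 (n + 1)
    have h4 : K (n + 1) * 2 ^ (2 * a (n + 1) + 1 + (n + 1)) ≤ (2:ℝ) ^ a (n + 1 + 1) := by
      have : 0 ≤ K (n + 1) * 2 ^ (a (n + 1) + 1) *
        (((((n + 1 : ℕ) : ℝ) + 1) * 2 ^ a (n + 1) + 2 ^ a (n + 1) + 1) ^ (n + 1)) *
        2 ^ (n + 1 + 3) := by positivity
      linarith
    have e1 := hpow2 (n + 1)
    have e2 := hpow2 (a (n + 1))
    have e3 := hpow2 (a (n + 1 + 1))
    set A : ℝ := (1 / 2) ^ a (n + 1 + 1)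
    have hA : 0 < A := by positivity
    calc K (n + 1) * (2 ^ (a (n + 1) + 1) * A) =
        K (n + 1) * (2 ^ (a (n + 1) + 1) * A) * (((1 / 2) ^ (n + 1) * 2 ^ (n + 1)) *
          ((1 / 2) ^ a (n + 1) * 2 ^ a (n + 1))) := by rw [e1, e2]; ring
      _ = ((1 / 2) ^ (n + 1) * (1 / 2) ^ a (n + 1)) * (A *
          (K (n + 1) * 2 ^ (2 * a (n + 1) + 1 + (n + 1)))) := by
          have : (2:ℝ) ^ (2 * a (n + 1) + 1 + (n + 1)) =
            2 ^ (a (n + 1) + 1) * 2 ^ (n + 1) * 2 ^ a (n + 1) := by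
            rw [← pow_add, ← pow_add]; congr 1; omega
          rw [this]; ring
      _ ≤ ((1 / 2) ^ (n + 1) * (1 / 2) ^ a (n + 1)) * (A * (2:ℝ) ^ a (n + 1 + 1)) :=
          mul_le_mul_of_nonneg_left (mul_le_mul_of_nonneg_left h4 hA.le) (by positivity)
      _ = (1 / 2) ^ (n + 1) * (1 / 2) ^ a (n + 1) := by rw [e3, mul_one]

end Pool.Agent.X189.HN
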