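import Pool.Agent.X189.HN.UE2
import Pool.Agent.X189.HN.Dat

set_option autoImplicit false

/-!
The construction of the time-change function.
-/

namespace Pool.Agent.X189.HN

open MeasureTheory Set Filter Topology Heis
open scoped ENNReal NNReal

/-! ### The circle -/

/-- the projection to the circle -/
noncomputable def cc (v : ℝ) : UnitAddCircle := (v : UnitAddCircle)

theorem cc_add (u v : ℝ) : cc (u + v) = cc u + cc v := rfl
theorem cc_sub (u v : ℝ) : cc (u - v) = cc u - cc v := rfl
theorem cc_neg (u : ℝ) : cc (-u) = -cc u := rfl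
theorem cc_zsmul (n : ℤ) (u : ℝ) : cc (n * u) = n • cc u := by
  rw [← zsmul_eq_mul]
  rfl
theorem cc_int (n : ℤ) : cc n = 0 := by
  rw [cc, AddCircle.coe_eq_zero_iff]
  exact ⟨n, by simp⟩
theorem cc_zero : cc 0 = 0 := rfl
theorem continuous_cc : Continuous cc := AddCircle.continuous_mk' 1
theorem cc_surj : Function.Surjective cc := QuotientAddGroup.mk_surjective
theorem norm_cc_le (v : ℝ) : ‖cc v‖ ≤ |v| := by
  have h : ‖cc v‖ ≤ ‖v‖ := QuotientAddGroup.norm_mk_le_norm
  simpa using h

theorem cc_eq_iff {u v : ℝ} : cc u = cc v ↔ ∃ n : ℤ, u = v + n := by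
  rw [← sub_eq_zero, ← cc_sub, cc, AddCircle.coe_eq_zero_iff]
  constructor
  · rintro ⟨n, hn⟩
    exact ⟨n, by simp at hn; linarith⟩
  · rintro ⟨n, hn⟩
    exact ⟨n, by simp; linarith⟩

instance : IsProbabilityMeasure (volume : Measure UnitAddCircle) := ⟨by simp⟩

theorem unif {m : Measure UnitAddCircle} [IsProbabilityMeasure m]
    (h : ∀ s : ℝ, m.map (fun w => cc s + w) = m) : m = volume := by
  have : m.IsAddLeftInvariant := ⟨fun g => by
    obtain ⟨s, rfl⟩ := cc_surj g
    exact h s⟩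
  have : m.IsAddHaarMeasure :=
    Measure.isAddHaarMeasure_of_isCompact_nonempty_interior m univ isCompact_univ (by simp)
      (by simp) (by simp)
  exact Measure.isAddHaarMeasure_eq_of_isProbabilityMeasure m volume

theorem vol_circle {S : Set UnitAddCircle} (hS : MeasurableSet S) :
    volume S = volume (cc ⁻¹' S ∩ Ioc (0:ℝ) 1) := by
  have := AddCircle.add_projection_respects_measure 1 0 hS
  rw [this, zero_add]
  rfl

/-- the arc -/
def arc (a b : ℝ) : Set UnitAddCircle := cc '' Ioo a b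

theorem isOpen_arc (a b : ℝ) : IsOpen (arc a b) :=
  QuotientAddGroup.isOpenMap_coe _ isOpen_Ioo

theorem vol_arc {a b : ℝ} (ha : 0 ≤ a) (hb : b ≤ 1) : volume (arc a b) = ENNReal.ofReal (b - a) := by
  rw [vol_circle (isOpen_arc a b).measurableSet]
  have : cc ⁻¹' arc a b ∩ Ioc (0:ℝ) 1 = Ioo a b := by
    ext v
    simp only [arc, mem_inter_iff, mem_preimage, mem_image, mem_Ioo, mem_Ioc]
    constructor
    · rintro ⟨⟨u, ⟨h1, h2⟩, h3⟩, h4, h5⟩
      obtain ⟨n, hn⟩ := cc_eq_iff.1 h3
      have hn1 : (n : ℝ) < 1 := by linarith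
      have hn2 : (-1 : ℝ) < n := by linarith
      have hn3 : n < (1 : ℤ) := by exact_mod_cast hn1
      have hn4 : (-1 : ℤ) < n := by exact_mod_cast hn2
      have hn5 : n = 0 := by omega
      rw [hn5] at hn
      simp at hn
      rw [← hn]
      exact ⟨h1, h2⟩
    · rintro ⟨h1, h2⟩
      exact ⟨⟨v, ⟨h1, h2⟩, rfl⟩, by linarith, by linarith⟩
  rw [this, Real.volume_Ioo]

theorem continuous_lift {f : ℝ → ℝ} (hf : Function.Periodic f 1) (hc : Continuous f) :
    Continuous (fun w : UnitAddCircle => hf.lift w) := by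
  have hq : IsQuotientMap cc := QuotientAddGroup.isQuotientMap_mk _
  rw [hq.continuous_iff]
  have : (fun w : UnitAddCircle => hf.lift w) ∘ cc = f := by
    funext v
    exact hf.lift_coe v
  rw [this]
  exact hc

/-! ### characters -/

theorem exists_chi (p r : ℤ) : ∃ χ : M → UnitAddCircle, Continuous χ ∧
    ∀ g : Heis, χ (mk g) = cc (p * g.1 + r * g.2.1) := by
  refine ⟨fun x => p • tor x 0 + r • tor x 1, ?_, fun g => ?_⟩
  · exact (((continuous_apply 0).comp continuous_tor).zsmul p).add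
      (((continuous_apply 1).comp continuous_tor).zsmul r)
  · rw [cc_add, cc_zsmul, cc_zsmul]
    rfl

/-- the character `p x + r y` -/
noncomputable def chi (p r : ℤ) : M → UnitAddCircle := (exists_chi p r).choose

theorem continuous_chi (p r : ℤ) : Continuous (chi p r) := (exists_chi p r).choose_spec.1
theorem chi_mk (p r : ℤ) (g : Heis) : chi p r (mk g) = cc (p * g.1 + r * g.2.1) :=
  (exists_chi p r).choose_spec.2 g

theorem chi_phi (p r : ℤ) (θ t : ℝ) (x : M) :
    chi p r (phi θ t x) = cc ((p + r * θ) * t) + chi p r x := by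
  obtain ⟨g, rfl⟩ := mk_surj x
  rw [phi_mk, chi_mk, chi_mk, ← cc_add, pt_x, pt_y]
  congr 1
  ring

theorem chi_eta (p r : ℤ) (s : ℝ) (x : M) : chi p r (eta s x) = cc (r * s) + chi p r x := by
  obtain ⟨g, rfl⟩ := mk_surj x
  rw [eta_mk, chi_mk, chi_mk, ← cc_add, pt_x, pt_y]
  congr 1
  ring

theorem map_chi (p : ℤ) {r : ℤ} (hr : 0 < r) : mu.map (chi p r) = volume := by
  have : IsProbabilityMeasure (mu.map (chi p r)) :=
    Measure.isProbabilityMeasure_map (continuous_chi p r).measurable.aemeasurable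
  have hr' : (r : ℝ) ≠ 0 := by exact_mod_cast hr.ne'
  refine unif fun s => ?_
  have hc : Continuous fun w : UnitAddCircle => cc s + w := by fun_prop
  have hce : Continuous (eta (s / r)) := continuous_eta.comp (continuous_const.prodMk continuous_id)
  rw [Measure.map_map hc.measurable (continuous_chi p r).measurable]
  have h1 : (fun w => cc s + w) ∘ chi p r = chi p r ∘ eta (s / r) := by
    funext x
    simp only [Function.comp]
    rw [chi_eta]
    congr 2
    field_simp
  rw [h1, ← Measure.map_map (continuous_chi p r).measurable hce.measurable, (mp_eta _).map_eq]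

/-! ### The sine -/

theorem four_le_sin {v : ℝ} (h0 : 0 ≤ v) (h1 : v ≤ 1 / 4) : 4 * v ≤ Real.sin (2 * Real.pi * v) := by
  have hpi := Real.pi_pos
  have := Real.mul_le_sin (x := 2 * Real.pi * v) (by positivity) (by nlinarith)
  have e : 2 / Real.pi * (2 * Real.pi * v) = 4 * v := by field_simp; ring
  rwa [e] at this

theorem four_le_sin' {v : ℝ} (h0 : 1 / 4 ≤ v) (h1 : v ≤ 1 / 2) :
    4 * (1 / 2 - v) ≤ Real.sin (2 * Real.pi * v) := by
  have := four_le_sin (v := 1 / 2 - v) (by linarith) (by linarith)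
  have e : 2 * Real.pi * (1 / 2 - v) = Real.pi - 2 * Real.pi * v := by ring
  rwa [e, Real.sin_pi_sub] at this

theorem sin_nonpos' {v : ℝ} (h0 : 1 / 2 ≤ v) (h1 : v ≤ 1) : Real.sin (2 * Real.pi * v) ≤ 0 := by
  have hpi := Real.pi_pos
  have e : Real.sin (2 * Real.pi * v) = -Real.sin (2 * Real.pi * v - Real.pi) := by
    rw [Real.sin_sub_pi, neg_neg]
  rw [e, neg_nonpos]
  exact Real.sin_nonneg_of_nonneg_of_le_pi (by nlinarith) (by nlinarith)

theorem half_le_sin {v : ℝ} (h0 : 1 / 8 < v) (h1 : v < 3 / 8) :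
    1 / 2 ≤ Real.sin (2 * Real.pi * v) := by
  rcases le_total v (1 / 4) with h | h
  · linarith [four_le_sin (by linarith) h]
  · linarith [four_le_sin' h (by linarith)]

theorem sin_le_neg_half {v : ℝ} (h0 : 5 / 8 < v) (h1 : v < 7 / 8) :
    Real.sin (2 * Real.pi * v) ≤ -(1 / 2) := by
  have := half_le_sin (v := v - 1 / 2) (by linarith) (by linarith)
  have e : 2 * Real.pi * (v - 1 / 2) = 2 * Real.pi * v - Real.pi := by ring
  rw [e, Real.sin_sub_pi] at this
  linarith

theorem sin_per : Function.Periodic (fun v => Real.sin (2 * Real.pi * v)) 1 := by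
  intro v
  have : 2 * Real.pi * (v + 1) = 2 * Real.pi * v + 2 * Real.pi := by ring
  simp only [this, Real.sin_add_two_pi]

/-- the sine on the circle -/
noncomputable def sn (w : UnitAddCircle) : ℝ := sin_per.lift w

theorem sn_cc (v : ℝ) : sn (cc v) = Real.sin (2 * Real.pi * v) := sin_per.lift_coe v

theorem continuous_sn : Continuous sn := continuous_lift sin_per (by fun_prop)

theorem vol_bad (n : ℕ) : volume {w : UnitAddCircle | 0 < 2 ^ n * sn w ∧ 2 ^ n * sn w < 1} ≤
    ENNReal.ofReal ((1 / 2) ^ n) := by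
  have hm : MeasurableSet {w : UnitAddCircle | 0 < 2 ^ n * sn w ∧ 2 ^ n * sn w < 1} := by
    have hc : Continuous fun w => 2 ^ n * sn w := continuous_const.mul continuous_sn
    exact ((isOpen_lt continuous_const hc).inter (isOpen_lt hc continuous_const)).measurableSet
  rw [vol_circle hm]
  have hh : ((1:ℝ) / 2) ^ n * 2 ^ n = 1 := by rw [← mul_pow]; norm_num
  have h2n : (0:ℝ) < 2 ^ n := by positivity
  set e : ℝ := (1 / 2) ^ n with he
  have he0 : 0 < e := by positivity
  have hsub : cc ⁻¹' {w : UnitAddCircle | 0 < 2 ^ n * sn w ∧ 2 ^ n * sn w < 1} ∩ Ioc (0:ℝ) 1 ⊆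
      Ioo 0 (e / 4) ∪ Ioo (1 / 2 - e / 4) (1 / 2) := by
    rintro v ⟨⟨h1, h2⟩, h3, h4⟩
    rw [sn_cc] at h1 h2
    have h5 : 0 < Real.sin (2 * Real.pi * v) := by
      by_contra hcon
      push Not at hcon
      nlinarith
    have h6 : Real.sin (2 * Real.pi * v) < e := by
      by_contra hcon
      push Not at hcon
      nlinarith
    rcases le_or_gt v (1 / 4) with h | h
    · left
      exact ⟨h3, by linarith [four_le_sin h3.le h]⟩
    · rcases lt_or_ge v (1 / 2) with h' | h'
      · right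
        exact ⟨by linarith [four_le_sin' h.le h'.le], h'⟩
      · exact absurd (sin_nonpos' h' h4) (not_le.2 h5)
  refine (measure_mono hsub).trans ((measure_union_le _ _).trans ?_)
  rw [Real.volume_Ioo, Real.volume_Ioo, ← ENNReal.ofReal_add (by linarith) (by linarith)]
  exact ENNReal.ofReal_le_ofReal (by linarith)

theorem vol_up : ENNReal.ofReal (1 / 4) ≤ volume {w : UnitAddCircle | 1 / 2 ≤ sn w} := by
  have h : arc (1 / 8) (3 / 8) ⊆ {w : UnitAddCircle | 1 / 2 ≤ sn w} := by
    rintro _ ⟨v, ⟨h1, h2⟩, rfl⟩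
    show 1 / 2 ≤ sn (cc v)
    rw [sn_cc]
    exact half_le_sin h1 h2
  refine le_trans ?_ (measure_mono h)
  rw [vol_arc (by norm_num) (by norm_num)]
  exact ENNReal.ofReal_le_ofReal (by norm_num)

theorem vol_down : ENNReal.ofReal (1 / 4) ≤ volume {w : UnitAddCircle | sn w ≤ -(1 / 2)} := by
  have h : arc (5 / 8) (7 / 8) ⊆ {w : UnitAddCircle | sn w ≤ -(1 / 2)} := by
    rintro _ ⟨v, ⟨h1, h2⟩, rfl⟩
    show sn (cc v) ≤ -(1 / 2)
    rw [sn_cc]
    exact sin_le_neg_half h1 h2
  refine le_trans ?_ (measure_mono h)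
  rw [vol_arc (by norm_num) (by norm_num)]
  exact ENNReal.ofReal_le_ofReal (by norm_num)

end Pool.Agent.X189.HN
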