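import Pool.Agent.X189.HN.Alp

set_option autoImplicit false

/-!
The eigenfunction of the time-changed flow, and measurable non-triviality.
-/

namespace Pool.Agent.X189.HN

open MeasureTheory Set Filter Topology Heis
open scoped ENNReal NNReal

namespace D

variable (d : D)

/-- the points at which the eigenfunction converges -/
def good : Set M := {x | ∑' n, ‖cc (d.g n x)‖ₑ ≠ ∞}

theorem meas_good : MeasurableSet d.good := by
  have h : Measurable fun x : M => ∑' n, ‖cc (d.g n x)‖ₑ :=
    Measurable.tsum fun n => (continuous_cc.comp (d.g_cont n)).measurable.enorm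
  exact h (measurableSet_singleton ∞).compl

theorem good_iff (x : M) : x ∈ d.good ↔ Summable fun n => ‖cc (d.g n x)‖ := by
  have h1 : (∑' n, ‖cc (d.g n x)‖ₑ ≠ ∞) ↔ Summable fun n => ‖cc (d.g n x)‖₊ := by
    simp only [enorm_eq_nnnorm]
    exact ENNReal.tsum_coe_ne_top_iff_summable
  rw [good, mem_ofPred_eq, h1, ← NNReal.summable_coe]
  rfl

theorem summable_diff (x : M) (T : ℝ) :
    Summable fun n => |d.g n (phi d.th T x) - d.g n x| :=
  Summable.of_nonneg_of_le (fun _ => abs_nonneg _) (fun n => d.g_diff_le n x T)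
    (d.summable_del_K.mul_right _)

theorem good_phi {x : M} (hx : x ∈ d.good) (t : ℝ) : phi d.th t x ∈ d.good := by
  rw [good_iff] at hx ⊢
  refine Summable.of_nonneg_of_le (fun _ => norm_nonneg _) (fun n => ?_)
    (hx.add (d.summable_diff x t))
  have h1 : cc (d.g n (phi d.th t x)) = cc (d.g n x) + cc (d.g n (phi d.th t x) - d.g n x) := by
    rw [← cc_add]; congr 1; ring
  rw [h1]
  exact (norm_add_le _ _).trans (add_le_add le_rfl (norm_cc_le _))

theorem good_phi_iff {x : M} (t : ℝ) : phi d.th t x ∈ d.good ↔ x ∈ d.good := by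
  constructor
  · intro h
    have := d.good_phi h (-t)
    rw [phi_add, add_neg_cancel, phi_zero] at this
    exact this
  · exact fun h => d.good_phi h t

/-- the eigenfunction, in additive notation -/
noncomputable def F (x : M) : UnitAddCircle := chi 1 0 x + ∑' n, cc (d.g n x)

theorem F_phi {x : M} (hx : x ∈ d.good) (t : ℝ) :
    d.F (phi d.th t x) = cc (d.tau t x) + d.F x := by
  have hs : Summable fun n => cc (d.g n x) := ((d.good_iff x).1 hx).of_norm
  have h1 : HasSum (fun n => cc (d.g n (phi d.th t x) - d.g n x)) (cc (d.tau t x - t)) := by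
    have := (d.tau_hasSum t x).map (QuotientAddGroup.mk' (AddSubgroup.zmultiples (1:ℝ)))
      (AddCircle.continuous_mk' 1)
    exact this
  have h2 : HasSum (fun n => cc (d.g n (phi d.th t x)))
      (cc (d.tau t x - t) + ∑' n, cc (d.g n x)) := by
    have := h1.add hs.hasSum
    refine this.congr_fun ?_
    intro n
    rw [← cc_add]
    congr 1
    ring
  rw [F, h2.tsum_eq, F, chi_phi]
  have h3 : (((1 : ℤ) : ℝ) + ((0 : ℤ) : ℝ) * d.th) * t = t := by simp
  rw [h3, cc_sub]
  abel

open Classical in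
/-- a measurable version -/
noncomputable def Fm (x : M) : UnitAddCircle := if x ∈ d.good then d.F x else 0

open Classical in
theorem meas_Fm : Measurable d.Fm := by
  have h : ∀ N : ℕ, Measurable fun x : M =>
      if x ∈ d.good then chi 1 0 x + ∑ n ∈ Finset.range N, cc (d.g n x) else 0 := by
    intro N
    refine Measurable.ite d.meas_good ?_ measurable_const
    exact ((continuous_chi 1 0).add (continuous_finsetSum _ fun n _ =>
      continuous_cc.comp (d.g_cont n))).measurable
  refine measurable_of_tendsto_metrizable h ?_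
  rw [tendsto_pi_nhds]
  intro x
  unfold Fm
  by_cases hx : x ∈ d.good
  · simp only [hx, if_true]
    have hs : Summable fun n => cc (d.g n x) := ((d.good_iff x).1 hx).of_norm
    exact tendsto_const_nhds.add hs.hasSum.tendsto_sum_nat
  · simp only [hx, if_false]
    exact tendsto_const_nhds

/-! ### The good set has full measure -/

theorem g_sn (n : ℕ) (x : M) : d.g n x =
    4 ^ n * Real.smoothTransition (2 ^ n * sn (chi (d.p n) (d.r n) x)) := by
  obtain ⟨v, hv⟩ := cc_surj (chi (d.p n) (d.r n) x)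
  rw [d.g_of_cc hv.symm, ← hv, sn_cc]
  rfl

theorem cc_g_zero {n : ℕ} {x : M} (h : ¬ (0 < 2 ^ n * sn (chi (d.p n) (d.r n) x) ∧
    2 ^ n * sn (chi (d.p n) (d.r n) x) < 1)) : cc (d.g n x) = 0 := by
  rw [d.g_sn]
  rcases le_or_gt (2 ^ n * sn (chi (d.p n) (d.r n) x)) 0 with h1 | h1
  · rw [Real.smoothTransition.zero_of_nonpos h1, mul_zero]
    rfl
  · have h2 : 1 ≤ 2 ^ n * sn (chi (d.p n) (d.r n) x) := by
      by_contra hcon
      push Not at hcon
      exact h ⟨h1, hcon⟩
    rw [Real.smoothTransition.one_of_one_le h2, mul_one]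
    have : ((4:ℝ) ^ n) = ((4 ^ n : ℤ) : ℝ) := by push_cast; rfl
    rw [this]
    exact cc_int _

theorem good_ae : ∀ᵐ x ∂mu, x ∈ d.good := by
  set S : ℕ → Set UnitAddCircle := fun n => {w | 0 < 2 ^ n * sn w ∧ 2 ^ n * sn w < 1} with hS
  have hSm : ∀ n, MeasurableSet (S n) := fun n => by
    have hc : Continuous fun w => 2 ^ n * sn w := continuous_const.mul continuous_sn
    exact ((isOpen_lt continuous_const hc).inter (isOpen_lt hc continuous_const)).measurableSet
  have h1 : ∀ n, mu (chi (d.p n) (d.r n) ⁻¹' S n) ≤ ENNReal.ofReal ((1 / 2) ^ n) := by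
    intro n
    rw [← Measure.map_apply (continuous_chi _ _).measurable (hSm n), map_chi _ (d.hr n)]
    exact vol_bad n
  have h2 : ∑' n, mu (chi (d.p n) (d.r n) ⁻¹' S n) ≠ ∞ := by
    refine ne_top_of_le_ne_top ?_ (ENNReal.tsum_le_tsum h1)
    rw [← ENNReal.ofReal_tsum_of_nonneg (fun n => by positivity) summable_geometric_two]
    exact ENNReal.ofReal_ne_top
  have h3 := measure_limsup_atTop_eq_zero h2
  have h4 : ∀ᵐ x ∂mu, x ∉ limsup (fun n => chi (d.p n) (d.r n) ⁻¹' S n) atTop := by
    rw [ae_iff]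
    simpa using h3
  filter_upwards [h4] with x hx
  rw [mem_limsup_iff_frequently_mem, not_frequently] at hx
  rw [good_iff]
  have h5 : ∀ᶠ n in atTop, ‖cc (d.g n x)‖ = 0 := by
    filter_upwards [hx] with n hn
    rw [norm_eq_zero]
    exact d.cc_g_zero hn
  obtain ⟨N, hN⟩ := eventually_atTop.1 h5
  refine summable_of_ne_finset_zero (s := Finset.range N) fun n hn => ?_
  exact hN n (by simpa using hn)

/-! ### Measurable non-triviality -/

theorem del_anti : Antitone d.del := by
  refine antitone_nat_of_succ_le fun n => ?_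
  have h1 := d.hdec n
  have h2 : d.del (n + 1) ≤ d.K (n + 1) * d.del (n + 1) :=
    le_mul_of_one_le_left (d.del_pos _).le (d.hK1 _)
  have h3 : ((1:ℝ) / 2) ^ (n + 1) * d.del n ≤ 1 * d.del n :=
    mul_le_mul_of_nonneg_right (pow_le_one₀ (by norm_num) (by norm_num)) (d.del_pos n).le
  have h4 : d.K (n + 1) * d.del (n + 1) ≤ (1 / 2) ^ (n + 1) * d.del n := h1
  linarith

theorem tail_le {n j : ℕ} (h : n < j) : d.del j * d.K j ≤ (1 / 2) ^ j * d.del n := by
  obtain ⟨k, rfl⟩ : ∃ k, j = k + 1 := ⟨j - 1, by omega⟩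
  have h1 : d.K (k + 1) * d.del (k + 1) ≤ (1 / 2) ^ (k + 1) * d.del k := d.hdec k
  rw [mul_comm] at h1
  refine h1.trans (mul_le_mul_of_nonneg_left (d.del_anti (by omega)) (by positivity))

/-- the critical times -/
noncomputable def T (n : ℕ) : ℝ := 1 / (2 * d.del n)

theorem T_pos (n : ℕ) : 0 < d.T n := by
  have := d.del_pos n
  unfold T
  positivity

theorem del_T (n : ℕ) : d.del n * d.T n = 1 / 2 := by
  have := (d.del_pos n).ne'
  unfold T
  field_simp

theorem sum_four (n : ℕ) : ∑ j ∈ Finset.range n, (4:ℝ) ^ j ≤ 4 ^ n / 3 := by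
  induction n with
  | zero => norm_num
  | succ n ih =>
    rw [Finset.sum_range_succ, pow_succ]
    linarith

/-- the ergodic integral is within `4 ^ n / 3 + 1` of its `n`-th term -/
theorem tau_T (n : ℕ) (x : M) : |(d.tau (d.T n) x - d.T n) -
    (d.g n (phi d.th (d.T n) x) - d.g n x)| ≤ 4 ^ n / 3 + 1 := by
  set b : ℕ → ℝ := fun j => d.g j (phi d.th (d.T n) x) - d.g j x with hb
  have hs : HasSum b (d.tau (d.T n) x - d.T n) := d.tau_hasSum _ x
  have h1 := hs.summable.sum_add_tsum_nat_add (n + 1)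
  rw [hs.tsum_eq, Finset.sum_range_succ] at h1
  have h2 : |∑ j ∈ Finset.range n, b j| ≤ 4 ^ n / 3 := by
    refine (Finset.abs_sum_le_sum_abs _ _).trans (le_trans (Finset.sum_le_sum fun j _ => ?_)
      (sum_four n))
    rw [hb, abs_le]
    have e1 := d.g_nonneg j (phi d.th (d.T n) x)
    have e2 := d.g_nonneg j x
    have e3 := d.g_le j (phi d.th (d.T n) x)
    have e4 := d.g_le j x
    constructor <;> simp only <;> linarith
  have h3 : |∑' j, b (j + (n + 1))| ≤ 1 := by
    have hbound : ∀ j, ‖b (j + (n + 1))‖ ≤ (1 / 2) * (1 / 2) ^ j := by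
      intro j
      rw [Real.norm_eq_abs]
      refine (d.g_diff_le _ x _).trans ?_
      rw [abs_of_pos (d.T_pos n)]
      have h4 := d.tail_le (n := n) (j := j + (n + 1)) (by omega)
      calc d.del (j + (n + 1)) * d.K (j + (n + 1)) * d.T n ≤
          ((1 / 2) ^ (j + (n + 1)) * d.del n) * d.T n :=
            mul_le_mul_of_nonneg_right h4 (d.T_pos n).le
        _ = (1 / 2) ^ (j + (n + 1)) * (1 / 2) := by rw [mul_assoc, d.del_T]
        _ ≤ (1 / 2) ^ j * (1 / 2) := by
            refine mul_le_mul_of_nonneg_right ?_ (by norm_num)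
            exact pow_le_pow_of_le_one (by norm_num) (by norm_num) (by omega)
        _ = (1 / 2) * (1 / 2) ^ j := by ring
    have h5 : Summable fun j : ℕ => ((1:ℝ) / 2) * (1 / 2) ^ j := summable_geometric_two.mul_left _
    have h6 := tsum_of_norm_bounded h5.hasSum hbound
    rw [tsum_mul_left, tsum_geometric_two, Real.norm_eq_abs] at h6
    linarith
  have h7 : (d.tau (d.T n) x - d.T n) - b n =
      ∑ j ∈ Finset.range n, b j + ∑' j, b (j + (n + 1)) := by linarith
  have h8 : (d.g n (phi d.th (d.T n) x) - d.g n x) = b n := rfl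
  rw [h8, h7]
  exact (abs_add_le _ _).trans (add_le_add h2 h3)

theorem sn_half (w : UnitAddCircle) : sn (cc (1 / 2) + w) = -sn w := by
  obtain ⟨v, rfl⟩ := cc_surj w
  rw [← cc_add, sn_cc, sn_cc]
  have : 2 * Real.pi * (1 / 2 + v) = 2 * Real.pi * v + Real.pi := by ring
  rw [this, Real.sin_add_pi]

theorem g_T (n : ℕ) (x : M) : d.g n (phi d.th (d.T n) x) =
    4 ^ n * Real.smoothTransition (2 ^ n * -sn (chi (d.p n) (d.r n) x)) := by
  rw [d.g_sn, chi_phi]
  have : ((d.p n : ℝ) + d.r n * d.th) * d.T n = 1 / 2 := d.del_T n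
  rw [this, sn_half]

theorem g_up {n : ℕ} (hn : 1 ≤ n) {x : M} (h : 1 / 2 ≤ sn (chi (d.p n) (d.r n) x)) :
    d.g n (phi d.th (d.T n) x) - d.g n x = -4 ^ n := by
  have h2 : (2:ℝ) ≤ 2 ^ n := by
    calc (2:ℝ) = 2 ^ 1 := by norm_num
      _ ≤ 2 ^ n := pow_le_pow_right₀ one_le_two hn
  rw [d.g_T, d.g_sn, Real.smoothTransition.zero_of_nonpos (by nlinarith),
    Real.smoothTransition.one_of_one_le (by nlinarith)]
  ring

theorem g_down {n : ℕ} (hn : 1 ≤ n) {x : M} (h : sn (chi (d.p n) (d.r n) x) ≤ -(1 / 2)) :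
    d.g n (phi d.th (d.T n) x) - d.g n x = 4 ^ n := by
  have h2 : (2:ℝ) ≤ 2 ^ n := by
    calc (2:ℝ) = 2 ^ 1 := by norm_num
      _ ≤ 2 ^ n := pow_le_pow_right₀ one_le_two hn
  rw [d.g_T, d.g_sn, Real.smoothTransition.one_of_one_le (by nlinarith),
    Real.smoothTransition.zero_of_nonpos (by nlinarith)]
  ring

theorem nontrivial (c : ℝ) {u : M → ℝ} (hu : AEMeasurable u mu)
    (h : ∀ t : ℝ, ∀ᵐ x ∂mu, u (phi d.th t x) - u x =
      ∫ s in (0:ℝ)..t, (d.alp (phi d.th s x) - c)) : False := by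
  -- a measurable version of `u`
  obtain ⟨u', hu', huu⟩ := hu
  -- tightness
  have htight : ∃ L : ℕ, mu {x | (L : ℝ) < |u' x|} < ENNReal.ofReal (1 / 8) := by
    have h1 : Tendsto (fun L : ℕ => mu {x | (L : ℝ) < |u' x|}) atTop (𝓝 0) := by
      have hanti : Antitone fun L : ℕ => {x | (L : ℝ) < |u' x|} := by
        intro a b hab x hx
        have : (a : ℝ) ≤ b := by exact_mod_cast hab
        exact lt_of_le_of_lt this hx
      have hempty : ⋂ L : ℕ, {x | (L : ℝ) < |u' x|} = ∅ := by
        rw [eq_empty_iff_forall_notMem]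
        intro x hx
        obtain ⟨L, hL⟩ := exists_nat_gt |u' x|
        have := mem_iInter.1 hx L
        exact absurd this (not_lt.2 hL.le)
      have := tendsto_measure_iInter_atTop (μ := mu) (s := fun L : ℕ => {x | (L : ℝ) < |u' x|})
        (fun L => (measurableSet_lt measurable_const hu'.abs).nullMeasurableSet) hanti
        ⟨0, measure_ne_top _ _⟩
      rw [hempty, measure_empty] at this
      exact this
    have h0 : (0 : ℝ≥0∞) < ENNReal.ofReal (1 / 8) := ENNReal.ofReal_pos.2 (by norm_num)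
    have h2 : ∀ᶠ L : ℕ in atTop, mu {x | (L : ℝ) < |u' x|} < ENNReal.ofReal (1 / 8) :=
      h1.eventually_lt_const h0
    exact h2.exists
  obtain ⟨L, hL⟩ := htight
  -- choose a large `n`
  obtain ⟨n, hn1, hn2⟩ : ∃ n : ℕ, 1 ≤ n ∧ (2 * L + 1 : ℝ) < 2 / 3 * 4 ^ n := by
    obtain ⟨n, hn⟩ := pow_unbounded_of_one_lt ((2 * L + 1 : ℝ) * 3 / 2) (by norm_num : (1:ℝ) < 4)
    refine ⟨n + 1, by omega, ?_⟩
    rw [pow_succ]
    have : (0:ℝ) < 4 ^ n := by positivity
    linarith
  set T := d.T n with hT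
  -- the bad events
  have hbad : mu ({x | (L : ℝ) < |u' x|} ∪ phi d.th T ⁻¹' {x | (L : ℝ) < |u' x|}) <
      ENNReal.ofReal (1 / 4) := by
    refine lt_of_le_of_lt (measure_union_le _ _) ?_
    rw [(mp_phi d.th T).measure_preimage
      (measurableSet_lt measurable_const hu'.abs).nullMeasurableSet]
    have : ENNReal.ofReal (1 / 4) = ENNReal.ofReal (1 / 8) + ENNReal.ofReal (1 / 8) := by
      rw [← ENNReal.ofReal_add (by norm_num) (by norm_num)]; norm_num
    rw [this]
    exact ENNReal.add_lt_add hL hL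
  have hae : ∀ᵐ x ∂mu, u' (phi d.th T x) - u' x = d.tau T x - T + (1 - c) * T := by
    have h1 := h T
    have h2 : ∀ᵐ x ∂mu, u (phi d.th T x) = u' (phi d.th T x) :=
      (mp_phi d.th T).quasiMeasurePreserving.ae huu
    filter_upwards [h1, huu, h2] with x e1 e2 e3
    rw [← e2, ← e3, e1, intervalIntegral.integral_sub ((d.cont_alp_phi x).intervalIntegrable _ _)
      intervalIntegrable_const]
    simp only [intervalIntegral.integral_const, sub_zero, smul_eq_mul, tau]
    ring
  have key : ∀ S : Set UnitAddCircle, MeasurableSet S → ENNReal.ofReal (1 / 4) ≤ volume S →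
      ∃ x, chi (d.p n) (d.r n) x ∈ S ∧ |d.tau T x - T + (1 - c) * T| ≤ 2 * L := by
    intro S hS hvol
    by_contra hcon
    push Not at hcon
    have h1 : ENNReal.ofReal (1 / 4) ≤ mu (chi (d.p n) (d.r n) ⁻¹' S) := by
      rw [← Measure.map_apply (continuous_chi _ _).measurable hS, map_chi _ (d.hr n)]
      exact hvol
    have h2 : (chi (d.p n) (d.r n) ⁻¹' S : Set M) ≤ᵐ[mu]
        ({x | (L : ℝ) < |u' x|} ∪ phi d.th T ⁻¹' {x | (L : ℝ) < |u' x|} : Set M) := by
      filter_upwards [hae] with x hx hxS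
      have h3 := hcon x hxS
      rw [← hx] at h3
      show (L : ℝ) < |u' x| ∨ (L : ℝ) < |u' (phi d.th T x)|
      by_contra h4
      push Not at h4
      have := abs_sub (u' (phi d.th T x)) (u' x)
      linarith [h4.1, h4.2]
    have h3 := measure_mono_ae h2
    exact absurd (h1.trans h3) (not_le.2 hbad)
  obtain ⟨x, hx1, hx2⟩ := key {w | 1 / 2 ≤ sn w}
    (isClosed_le continuous_const continuous_sn).measurableSet vol_up
  obtain ⟨y, hy1, hy2⟩ := key {w | sn w ≤ -(1 / 2)}
    (isClosed_le continuous_sn continuous_const).measurableSet vol_down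
  have h1 := d.tau_T n x
  have h2 := d.tau_T n y
  rw [d.g_up hn1 hx1] at h1
  rw [d.g_down hn1 hy1] at h2
  rw [abs_le] at h1 h2 hx2 hy2
  have e1 := h1.2
  have e2 := h2.1
  have e3 := hx2.1
  have e4 := hy2.2
  rw [← hT] at e1 e2
  linarith

end D

end Pool.Agent.X189.HN
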