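import Pool.Agent.X189.HN.Good

set_option autoImplicit false

/-!
The time-changed flow.
-/

namespace Pool.Agent.X189.HN

open MeasureTheory Set Filter Topology Heis
open scoped ENNReal NNReal

namespace D

variable (d : D)

theorem tau_zero (x : M) : d.tau 0 x = 0 := by simp [tau]

theorem tau_add (s t : ℝ) (x : M) : d.tau (s + t) x = d.tau s x + d.tau t (phi d.th s x) := by
  unfold tau
  have h1 : ∀ r, d.alp (phi d.th r (phi d.th s x)) = d.alp (phi d.th (s + r) x) := by
    intro r; rw [phi_add]
  simp only [h1]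
  rw [intervalIntegral.integral_comp_add_left (fun r => d.alp (phi d.th r x)) s, add_zero]
  rw [intervalIntegral.integral_add_adjacent_intervals
    ((d.cont_alp_phi x).intervalIntegrable _ _) ((d.cont_alp_phi x).intervalIntegrable _ _)]

theorem tau_deriv (x : M) (s : ℝ) : HasDerivAt (fun s => d.tau s x) (d.alp (phi d.th s x)) s :=
  intervalIntegral.integral_hasDerivAt_right ((d.cont_alp_phi x).intervalIntegrable _ _)
    ((d.cont_alp_phi x).stronglyMeasurableAtFilter _ _) (d.cont_alp_phi x).continuousAt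

theorem tau_incr {s t : ℝ} (h : s ≤ t) (x : M) : 3 / 4 * (t - s) ≤ d.tau t x - d.tau s x := by
  unfold tau
  rw [intervalIntegral.integral_interval_sub_left
    ((d.cont_alp_phi x).intervalIntegrable _ _) ((d.cont_alp_phi x).intervalIntegrable _ _)]
  have : 3 / 4 * (t - s) = ∫ _ in s..t, (3 / 4 : ℝ) := by simp; ring
  rw [this]
  exact intervalIntegral.integral_mono_on h intervalIntegrable_const
    ((d.cont_alp_phi x).intervalIntegrable _ _) fun r _ => d.alp_ge _

theorem tau_abs (s t : ℝ) (x : M) : 3 / 4 * |t - s| ≤ |d.tau t x - d.tau s x| := by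
  rcases le_total s t with h | h
  · rw [abs_of_nonneg (by linarith : 0 ≤ t - s)]
    exact (d.tau_incr h x).trans (le_abs_self _)
  · rw [abs_sub_comm t s, abs_of_nonneg (by linarith : 0 ≤ s - t), abs_sub_comm]
    exact (d.tau_incr h x).trans (le_abs_self _)

theorem tau_cont : Continuous fun q : ℝ × M => d.tau q.1 q.2 := by
  unfold tau
  have h : Continuous (Function.uncurry fun (q : ℝ × M) (s : ℝ) => d.alp (phi d.th s q.2)) := by
    show Continuous fun w : (ℝ × M) × ℝ => d.alp (phi d.th w.2 w.1.2)
    exact d.alp_cont.comp ((continuous_phi d.th).comp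
      (continuous_snd.prodMk (continuous_snd.comp continuous_fst)))
  exact intervalIntegral.continuous_parametric_intervalIntegral_of_continuous h continuous_fst

theorem exists_sig (t : ℝ) (x : M) : ∃ s, d.tau s x = t := by
  have hc : Continuous fun s => d.tau s x := d.tau_cont.comp (continuous_id.prodMk continuous_const)
  set b : ℝ := 2 * |t| with hb
  have hb0 : 0 ≤ b := by positivity
  have h1 : t ≤ d.tau b x := by
    have := d.tau_incr hb0 x
    rw [tau_zero] at this
    linarith [le_abs_self t, abs_nonneg t]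
  have h2 : d.tau (-b) x ≤ t := by
    have := d.tau_incr (s := -b) (t := 0) (by linarith) x
    rw [tau_zero] at this
    linarith [neg_abs_le t, abs_nonneg t]
  have h3 := intermediate_value_Icc (by linarith : -b ≤ b) hc.continuousOn
  obtain ⟨s, _, hs⟩ := h3 ⟨h2, h1⟩
  exact ⟨s, hs⟩

/-- the inverse clock -/
noncomputable def sig (t : ℝ) (x : M) : ℝ := (d.exists_sig t x).choose

theorem tau_sig (t : ℝ) (x : M) : d.tau (d.sig t x) x = t := (d.exists_sig t x).choose_spec

theorem tau_inj {s t : ℝ} {x : M} (h : d.tau s x = d.tau t x) : s = t := by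
  have := d.tau_abs s t x
  rw [h, sub_self, abs_zero] at this
  have h2 : |t - s| ≤ 0 := by linarith
  have h3 := abs_eq_zero.1 (le_antisymm h2 (abs_nonneg _))
  linarith

theorem sig_tau (s : ℝ) (x : M) : d.sig (d.tau s x) x = s := d.tau_inj (d.tau_sig _ _)

theorem sig_eq {s t : ℝ} {x : M} (h : d.tau s x = t) : d.sig t x = s := by
  rw [← h, d.sig_tau]

theorem sig_cont : Continuous fun q : ℝ × M => d.sig q.1 q.2 := by
  rw [continuous_iff_continuousAt]
  rintro ⟨t, x⟩
  rw [ContinuousAt, tendsto_iff_norm_sub_tendsto_zero]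
  have hc : Continuous fun q : ℝ × M => d.tau (d.sig t x) q.2 - q.1 :=
    (d.tau_cont.comp (continuous_const.prodMk continuous_snd)).sub continuous_fst
  have h0 : Tendsto (fun q : ℝ × M => 4 / 3 * |d.tau (d.sig t x) q.2 - q.1|) (𝓝 (t, x)) (𝓝 0) := by
    have h1 := ((continuous_const (y := (4 / 3 : ℝ))).mul hc.abs).tendsto (t, x)
    have e : 4 / 3 * |d.tau (d.sig t x) x - t| = 0 := by rw [d.tau_sig, sub_self, abs_zero, mul_zero]
    rw [← e]
    exact h1
  refine squeeze_zero (fun q => norm_nonneg _) (fun q => ?_) h0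
  rw [Real.norm_eq_abs]
  have h1 := d.tau_abs (d.sig q.1 q.2) (d.sig t x) q.2
  rw [d.tau_sig] at h1
  rw [abs_sub_comm]
  show |d.sig t x - d.sig q.1 q.2| ≤ 4 / 3 * |d.tau (d.sig t x) q.2 - q.1|
  linarith

/-- the time-changed flow -/
noncomputable def psi (t : ℝ) (x : M) : M := phi d.th (d.sig t x) x

theorem psi_cont : Continuous fun q : ℝ × M => d.psi q.1 q.2 :=
  (continuous_phi d.th).comp (d.sig_cont.prodMk continuous_snd)

theorem cpsi (t : ℝ) : Continuous (d.psi t) := by
  have h1 : Continuous fun x : M => ((t, x) : ℝ × M) := continuous_const.prodMk continuous_id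
  have h2 := d.psi_cont.comp h1
  exact h2

theorem psi_left (x : M) : Continuous fun u => d.psi u x := by
  have h1 : Continuous fun t : ℝ => ((t, x) : ℝ × M) := continuous_id.prodMk continuous_const
  have h2 := d.psi_cont.comp h1
  exact h2

theorem psi_swap : Continuous fun q : M × ℝ => d.psi q.2 q.1 := by
  have h1 : Continuous fun q : M × ℝ => ((q.2, q.1) : ℝ × M) := continuous_snd.prodMk continuous_fst
  have h2 := d.psi_cont.comp h1
  exact h2

theorem ctau (T : ℝ) : Continuous (d.tau T) := by
  have h1 : Continuous fun x : M => ((T, x) : ℝ × M) := continuous_const.prodMk continuous_id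
  have h2 := d.tau_cont.comp h1
  exact h2

theorem sig_left (x : M) : Continuous fun u => d.sig u x := by
  have h1 : Continuous fun t : ℝ => ((t, x) : ℝ × M) := continuous_id.prodMk continuous_const
  have h2 := d.sig_cont.comp h1
  exact h2

theorem psi_zero (x : M) : d.psi 0 x = x := by
  have : d.sig 0 x = 0 := d.sig_eq (d.tau_zero x)
  rw [psi, this, phi_zero]

theorem sig_add (u t : ℝ) (x : M) : d.sig (u + t) x = d.sig u x + d.sig t (d.psi u x) := by
  refine d.sig_eq ?_
  rw [d.tau_add, d.tau_sig]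
  congr 1
  exact d.tau_sig t (d.psi u x)

theorem psi_psi (u t : ℝ) (x : M) : d.psi t (d.psi u x) = d.psi (u + t) x := by
  conv_rhs => rw [psi, d.sig_add, ← phi_add]
  rfl

theorem psi_tau (s : ℝ) (x : M) : d.psi (d.tau s x) x = phi d.th s x := by
  rw [psi, d.sig_tau]

theorem sig_deriv (t : ℝ) (x : M) :
    HasDerivAt (fun t => d.sig t x) (1 / d.alp (phi d.th (d.sig t x) x)) t := by
  rw [one_div]
  refine HasDerivAt.of_local_left_inverse (f := fun s => d.tau s x) ?_
    (d.tau_deriv x (d.sig t x)) (d.alp_pos _).ne' (Eventually.of_forall fun y => d.tau_sig y x)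
  exact (d.sig_left x).continuousAt

/-! ### The invariant measure -/

theorem int_orbit {f : M → ℝ} (hf : Continuous f) (x : M) (T : ℝ) :
    ∫ s in (0:ℝ)..T, f (phi d.th s x) * d.alp (phi d.th s x) =
      ∫ u in (0:ℝ)..(d.tau T x), f (d.psi u x) := by
  have hg : Continuous fun u => f (d.psi u x) := hf.comp (d.psi_left x)
  have h := intervalIntegral.integral_comp_mul_deriv (a := 0) (b := T)
    (f := fun s => d.tau s x) (f' := fun s => d.alp (phi d.th s x))
    (g := fun u => f (d.psi u x)) (fun s _ => d.tau_deriv x s)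
    (d.cont_alp_phi x).continuousOn hg
  rw [d.tau_zero] at h
  rw [← h]
  refine intervalIntegral.integral_congr fun s _ => ?_
  simp only [Function.comp, d.psi_tau]

theorem int_alp {f : M → ℝ} (hf : Continuous f) (T : ℝ) :
    T * ∫ x, f x * d.alp x ∂mu = ∫ x, (∫ u in (0:ℝ)..(d.tau T x), f (d.psi u x)) ∂mu := by
  have hF : Continuous (Function.uncurry fun (s : ℝ) (x : M) =>
      f (phi d.th s x) * d.alp (phi d.th s x)) := by
    show Continuous fun q : ℝ × M => f (phi d.th q.1 q.2) * d.alp (phi d.th q.1 q.2)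
    exact (hf.comp (continuous_phi d.th)).mul (d.alp_cont.comp (continuous_phi d.th))
  have h1 := fubini (m := mu) hF 0 T
  simp only [d.int_orbit hf] at h1
  rw [← h1]
  have h2 : ∀ s : ℝ, ∫ x, f (phi d.th s x) * d.alp (phi d.th s x) ∂mu = ∫ x, f x * d.alp x ∂mu :=
    fun s => int_phi (fun t => (mp_phi d.th t).map_eq) (F := fun x => f x * d.alp x)
      (hf.mul d.alp_cont) s
  simp only [h2]
  simp

theorem int_inv {f : M → ℝ} (hf : Continuous f) (t : ℝ) :
    ∫ x, f (d.psi t x) * d.alp x ∂mu = ∫ x, f x * d.alp x ∂mu := by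
  obtain ⟨B, hB⟩ := isCompact_univ.exists_bound_of_continuousOn (f := f) hf.continuousOn
  have hB' : ∀ x, ‖f x‖ ≤ B := fun x => hB x (mem_univ x)
  set I := ∫ x, f x * d.alp x ∂mu with hI
  set J := ∫ x, f (d.psi t x) * d.alp x ∂mu with hJ
  have key : ∀ T : ℝ, 0 < T → T * |J - I| ≤ 2 * B * |t| := by
    intro T hT
    have h1 := d.int_alp hf T
    have h2 := d.int_alp (f := fun x => f (d.psi t x)) (hf.comp (d.cpsi t)) T
    rw [← hI] at h1
    rw [← hJ] at h2
    have h3 : T * |J - I| = |T * J - T * I| := by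
      rw [← mul_sub, abs_mul, abs_of_pos hT]
    have hc : ∀ (h : M → ℝ), Continuous h → Continuous fun x =>
        ∫ u in (0:ℝ)..(d.tau T x), h (d.psi u x) := by
      intro h hh
      have e : Continuous (Function.uncurry fun (x : M) (u : ℝ) => h (d.psi u x)) := by
        show Continuous fun q : M × ℝ => h (d.psi q.2 q.1)
        exact hh.comp d.psi_swap
      exact intervalIntegral.continuous_parametric_intervalIntegral_of_continuous e (d.ctau T)
    have i1 : Integrable (fun x => ∫ u in (0:ℝ)..(d.tau T x), f (d.psi t (d.psi u x))) mu :=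
      int_of_cont (hc (fun x => f (d.psi t x)) (hf.comp (d.cpsi t)))
    have i2 : Integrable (fun x => ∫ u in (0:ℝ)..(d.tau T x), f (d.psi u x)) mu :=
      int_of_cont (hc _ hf)
    rw [h3, h2, h1, ← integral_sub i1 i2]
    have hb : ∀ x, ‖(∫ u in (0:ℝ)..(d.tau T x), f (d.psi t (d.psi u x))) -
        (∫ u in (0:ℝ)..(d.tau T x), f (d.psi u x))‖ ≤ 2 * B * |t| := by
      intro x
      have hci : ∀ a b : ℝ, IntervalIntegrable (fun u => f (d.psi u x)) volume a b := fun a b =>
        (hf.comp (d.psi_left x)).intervalIntegrable _ _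
      have e1 : (∫ u in (0:ℝ)..(d.tau T x), f (d.psi t (d.psi u x))) =
          ∫ u in t..(d.tau T x + t), f (d.psi u x) := by
        simp only [d.psi_psi]
        rw [intervalIntegral.integral_comp_add_right (fun u => f (d.psi u x)) t, zero_add]
      have e2 : (∫ u in t..(d.tau T x + t), f (d.psi u x)) - ∫ u in (0:ℝ)..(d.tau T x), f (d.psi u x)
          = (∫ u in (d.tau T x)..(d.tau T x + t), f (d.psi u x)) - ∫ u in (0:ℝ)..t, f (d.psi u x) := by
        have e3 := intervalIntegral.integral_add_adjacent_intervals (hci 0 t)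
          (hci t (d.tau T x + t))
        have e4 := intervalIntegral.integral_add_adjacent_intervals (hci 0 (d.tau T x))
          (hci (d.tau T x) (d.tau T x + t))
        linarith
      rw [e1, e2]
      refine (norm_sub_le _ _).trans ?_
      have e5 := intervalIntegral.norm_integral_le_of_norm_le_const (a := d.tau T x)
        (b := d.tau T x + t) (f := fun u => f (d.psi u x)) (C := B) (fun u _ => hB' _)
      have e6 := intervalIntegral.norm_integral_le_of_norm_le_const (a := 0)
        (b := t) (f := fun u => f (d.psi u x)) (C := B) (fun u _ => hB' _)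
      rw [add_sub_cancel_left] at e5
      rw [sub_zero] at e6
      linarith
    have h4 := norm_integral_le_of_norm_le_const (μ := mu) (Eventually.of_forall hb)
    simpa using h4
  by_contra hne
  have hpos : 0 < |J - I| := abs_pos.2 (sub_ne_zero.2 hne)
  have h1 := key ((2 * B * |t| + 1) / |J - I|) (by
    have hB0 : 0 ≤ B := (norm_nonneg _).trans (hB' (HN.mk 1))
    positivity)
  rw [div_mul_cancel₀ _ hpos.ne'] at h1
  linarith

end D

/-- the probability measure proportional to `α dμ` -/
noncomputable def nuOf (α : M → ℝ) : Measure M :=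
  (∫⁻ x, ENNReal.ofReal (α x) ∂mu)⁻¹ • mu.withDensity fun x => ENNReal.ofReal (α x)

namespace D

variable (d : D)

/-- the invariant measure -/
noncomputable def nu : Measure M := nuOf d.alp

theorem mass_pos : (∫⁻ x, ENNReal.ofReal (d.alp x) ∂mu) ≠ 0 := by
  have h : (∫⁻ _, ENNReal.ofReal (3 / 4) ∂mu) ≤ ∫⁻ x, ENNReal.ofReal (d.alp x) ∂mu :=
    lintegral_mono fun x => ENNReal.ofReal_le_ofReal (d.alp_ge x)
  rw [lintegral_const, measure_univ, mul_one] at h
  intro h0
  rw [h0] at h
  have : (0 : ℝ≥0∞) < ENNReal.ofReal (3 / 4) := ENNReal.ofReal_pos.2 (by norm_num)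
  exact absurd h (not_le.2 this)

theorem mass_fin : (∫⁻ x, ENNReal.ofReal (d.alp x) ∂mu) ≠ ∞ := by
  have h : (∫⁻ x, ENNReal.ofReal (d.alp x) ∂mu) ≤ ∫⁻ _, ENNReal.ofReal (5 / 4) ∂mu :=
    lintegral_mono fun x => ENNReal.ofReal_le_ofReal (d.alp_le x)
  rw [lintegral_const, measure_univ, mul_one] at h
  exact ne_top_of_le_ne_top ENNReal.ofReal_ne_top h

instance : IsProbabilityMeasure d.nu := by
  refine ⟨?_⟩
  rw [nu, nuOf, Measure.smul_apply, withDensity_apply _ MeasurableSet.univ, Measure.restrict_univ,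
    smul_eq_mul]
  exact ENNReal.inv_mul_cancel d.mass_pos d.mass_fin

theorem nu_ac : d.nu ≪ mu := by
  have h1 : mu.withDensity (fun x => ENNReal.ofReal (d.alp x)) ≪ mu :=
    withDensity_absolutelyContinuous mu _
  exact h1.smul_left _

theorem int_nu (f : M → ℝ) : ∫ x, f x ∂d.nu =
    (∫⁻ x, ENNReal.ofReal (d.alp x) ∂mu)⁻¹.toReal * ∫ x, f x * d.alp x ∂mu := by
  rw [nu, nuOf, integral_smul_measure, smul_eq_mul]
  congr 1
  have h1 := integral_withDensity_eq_integral_toReal_smul (μ := mu)
    (f := fun x => ENNReal.ofReal (d.alp x)) (d.alp_cont.measurable.ennreal_ofReal)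
    (Eventually.of_forall fun x => ENNReal.ofReal_lt_top) f
  rw [h1]
  refine integral_congr_ae (Eventually.of_forall fun x => ?_)
  simp only [ENNReal.toReal_ofReal (d.alp_pos x).le, smul_eq_mul]
  ring

theorem psi_mp (t : ℝ) : MeasurePreserving (d.psi t) d.nu d.nu := by
  refine ⟨(d.cpsi t).measurable, ?_⟩
  have : IsProbabilityMeasure (d.nu.map (d.psi t)) :=
    Measure.isProbabilityMeasure_map (d.cpsi t).measurable.aemeasurable
  refine ext_of_forall_integral_eq_of_IsFiniteMeasure fun f => ?_
  rw [integral_map (d.cpsi t).measurable.aemeasurable f.continuous.aestronglyMeasurable,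
    d.int_nu, d.int_nu, d.int_inv f.continuous]

end D

end Pool.Agent.X189.HN
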