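import Pool.Agent.X189.HN.Basic

set_option autoImplicit false

/-!
Unique ergodicity of irrational Heisenberg nilflows.
-/

namespace Pool.Agent.X189.HN

open MeasureTheory Set Filter Topology Heis
open scoped ENNReal

/-- The exponential map of the Heisenberg group. -/
noncomputable def expH (a b c : ℝ) : Heis := pt a b (c + a * b / 2)

/-- The nilflow in the direction `X = (1, θ, 0)`. -/
noncomputable def phi (θ t : ℝ) : M → M := R (expH (t * 1) (t * θ) (t * 0))

/-- translation by the centre -/
noncomputable def zet (c : ℝ) : M → M := R (pt 0 0 c)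

/-- translation in the `y`-direction -/
noncomputable def eta (s : ℝ) : M → M := R (pt 0 s 0)

theorem phi_mk (θ t : ℝ) (g : Heis) : phi θ t (mk g) =
    mk (pt (g.1 + t) (g.2.1 + t * θ) (g.2.2 + t * (t * θ) / 2 + g.1 * (t * θ))) := by
  rw [phi, R_mk]
  congr 1
  apply Heis.ext' <;> simp [expH]

theorem zet_mk (c : ℝ) (g : Heis) : zet c (mk g) = mk (pt g.1 g.2.1 (g.2.2 + c)) := by
  rw [zet, R_mk]
  congr 1
  apply Heis.ext' <;> simp

theorem eta_mk (s : ℝ) (g : Heis) : eta s (mk g) = mk (pt g.1 (g.2.1 + s) (g.2.2 + g.1 * s)) := by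
  rw [eta, R_mk]
  congr 1
  apply Heis.ext' <;> simp

theorem phi_add (θ s t : ℝ) (x : M) : phi θ s (phi θ t x) = phi θ (t + s) x := by
  obtain ⟨g, rfl⟩ := mk_surj x
  simp only [phi_mk]
  congr 1
  apply Heis.ext' <;> simp <;> ring

theorem phi_zero (θ : ℝ) (x : M) : phi θ 0 x = x := by
  obtain ⟨g, rfl⟩ := mk_surj x
  simp only [phi_mk]
  congr 1
  apply Heis.ext' <;> simp

theorem zet_add (c d : ℝ) (x : M) : zet c (zet d x) = zet (d + c) x := by
  obtain ⟨g, rfl⟩ := mk_surj x
  simp only [zet_mk]
  congr 1
  apply Heis.ext' <;> simp <;> ring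

theorem zet_zero (x : M) : zet 0 x = x := by
  obtain ⟨g, rfl⟩ := mk_surj x
  simp only [zet_mk]
  congr 1
  apply Heis.ext' <;> simp

theorem zet_one (x : M) : zet 1 x = x := by
  obtain ⟨g, rfl⟩ := mk_surj x
  rw [zet_mk]
  refine mk_eq_iff.2 ⟨0, 0, 1, ?_⟩
  apply Heis.ext' <;> simp <;> ring

theorem zet_phi (θ c t : ℝ) (x : M) : phi θ t (zet c x) = zet c (phi θ t x) := by
  obtain ⟨g, rfl⟩ := mk_surj x
  simp only [zet_mk, phi_mk]
  congr 1
  apply Heis.ext' <;> simp <;> ring

theorem zet_eta (c s : ℝ) (x : M) : eta s (zet c x) = zet c (eta s x) := by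
  obtain ⟨g, rfl⟩ := mk_surj x
  simp only [zet_mk, eta_mk]
  congr 1
  apply Heis.ext' <;> simp <;> ring

/-- the commutation relation -/
theorem phi_eta (θ t s : ℝ) (x : M) :
    phi θ t (eta s x) = eta s (zet (-(t * s)) (phi θ t x)) := by
  obtain ⟨g, rfl⟩ := mk_surj x
  simp only [zet_mk, eta_mk, phi_mk]
  congr 1
  apply Heis.ext' <;> simp <;> ring

theorem continuous_pt {X : Type*} [TopologicalSpace X] {a b c : X → ℝ} (ha : Continuous a)
    (hb : Continuous b) (hc : Continuous c) : Continuous fun x => pt (a x) (b x) (c x) := by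
  show Continuous fun x => ((a x, b x, c x) : ℝ × ℝ × ℝ)
  fun_prop

theorem continuous_zet : Continuous fun q : ℝ × M => zet q.1 q.2 :=
  continuous_act.comp ((continuous_pt continuous_const continuous_const continuous_fst).prodMk
    continuous_snd)

theorem continuous_eta : Continuous fun q : ℝ × M => eta q.1 q.2 :=
  continuous_act.comp ((continuous_pt continuous_const continuous_fst continuous_const).prodMk
    continuous_snd)

theorem continuous_phi (θ : ℝ) : Continuous fun q : ℝ × M => phi θ q.1 q.2 := by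
  refine continuous_act.comp (Continuous.prodMk ?_ continuous_snd)
  show Continuous fun q : ℝ × M => pt (q.1 * 1) (q.1 * θ) (q.1 * 0 + q.1 * 1 * (q.1 * θ) / 2)
  exact continuous_pt (by fun_prop) (by fun_prop) (by fun_prop)

theorem mp_phi (θ t : ℝ) : MeasurePreserving (phi θ t) mu mu := mu_R _
theorem mp_zet (c : ℝ) : MeasurePreserving (zet c) mu mu := mu_R _
theorem mp_eta (s : ℝ) : MeasurePreserving (eta s) mu mu := mu_R _

/-! ### Helper lemmas -/

theorem int_of_cont {X : Type*} [TopologicalSpace X] [CompactSpace X] [MeasurableSpace X]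
    [BorelSpace X] [SecondCountableTopology X] {m : Measure X}
    [IsFiniteMeasure m] {f : X → ℝ} (hf : Continuous f) : Integrable f m := by
  obtain ⟨C, hC⟩ := isCompact_univ.exists_bound_of_continuousOn (f := f) hf.continuousOn
  exact Integrable.of_bound hf.aestronglyMeasurable C
    (Eventually.of_forall fun x => hC x (mem_univ x))

theorem fubini {m : Measure M} [IsFiniteMeasure m] {F : ℝ → M → ℝ}
    (hF : Continuous (Function.uncurry F)) (a b : ℝ) :
    ∫ c in a..b, (∫ x, F c x ∂m) = ∫ x, (∫ c in a..b, F c x) ∂m := by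
  refine intervalIntegral_integral_swap ?_
  have hcomp : IsCompact (uIcc a b ×ˢ (univ : Set M)) := isCompact_uIcc.prod isCompact_univ
  obtain ⟨C, hC⟩ := hcomp.exists_bound_of_continuousOn (f := Function.uncurry F) hF.continuousOn
  haveI hfin0 : IsFiniteMeasure ((volume : Measure ℝ).restrict (uIoc a b)) :=
    ⟨by rw [Measure.restrict_apply_univ, uIoc]; exact measure_Ioc_lt_top⟩
  refine Integrable.of_bound hF.aestronglyMeasurable C ?_
  have h1 : (volume.restrict (uIoc a b)).prod m = (volume.prod m).restrict (uIoc a b ×ˢ univ) := by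
    rw [← Measure.prod_restrict, Measure.restrict_univ]
  rw [h1]
  filter_upwards [ae_restrict_mem (measurableSet_uIoc.prod MeasurableSet.univ)] with q hq
  exact hC q ⟨uIoc_subset_uIcc hq.1, mem_univ _⟩

theorem small_shift {g : M → ℝ} (hg : Continuous g) {ω : ℝ} (hω : 0 < ω) :
    ∃ δ : ℝ, 0 < δ ∧ ∀ s : ℝ, |s| < δ → ∀ y, |g (eta s y) - g y| < ω := by
  let F : C(ℝ, C(M, ℝ)) := ContinuousMap.curry
    ⟨fun q : ℝ × M => g (eta q.1 q.2), hg.comp continuous_eta⟩
  have h1 := Metric.continuousAt_iff.1 (F.continuous.continuousAt (x := 0)) ω hω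
  obtain ⟨δ, hδ, h2⟩ := h1
  refine ⟨δ, hδ, fun s hs y => ?_⟩
  have h3 := h2 (show dist s 0 < δ by simpa [Real.dist_eq] using hs)
  have h4 := (ContinuousMap.dist_lt_iff hω).1 h3 y
  have h5 : F 0 y = g y := by
    show g (eta 0 y) = g y
    obtain ⟨p, rfl⟩ := mk_surj y
    rw [eta_mk]
    congr 1
    congr 1
    apply Heis.ext' <;> simp
  rw [h5, Real.dist_eq] at h4
  exact h4

/-- decay of correlations for functions with zero central average -/
theorem corr_small (θ : ℝ) {g : M → ℝ} (hg : Continuous g)
    (hz : ∀ x, ∫ c in (0:ℝ)..1, g (zet c x) = 0) {ε : ℝ} (hε : 0 < ε) :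
    ∃ H : ℝ, 0 < H ∧ ∀ h, H ≤ h → |∫ x, g (phi θ h x) * g x ∂mu| ≤ ε := by
  obtain ⟨B, hB⟩ := isCompact_univ.exists_bound_of_continuousOn (f := g) hg.continuousOn
  have hB' : ∀ x, |g x| ≤ B := fun x => hB x (mem_univ x)
  have hB0 : 0 ≤ B := (abs_nonneg _).trans (hB' (mk 1))
  set ω : ℝ := ε / (2 * (B + 1)) with hω
  have hω0 : 0 < ω := by positivity
  obtain ⟨δ, hδ, hs⟩ := small_shift hg hω0
  refine ⟨2 / δ, by positivity, fun h hh => ?_⟩
  have hh0 : 0 < h := lt_of_lt_of_le (by positivity) hh
  set I := ∫ x, g (phi θ h x) * g x ∂mu with hI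
  set J : ℝ → ℝ := fun c => ∫ x, g (zet (-c) (phi θ h x)) * g x ∂mu with hJ
  have hcphi : Continuous (phi θ h) := (continuous_phi θ).comp (continuous_const.prodMk continuous_id)
  have hceta : ∀ s, Continuous (eta s) := fun s =>
    continuous_eta.comp (continuous_const.prodMk continuous_id)
  have hczet : ∀ s, Continuous (zet s) := fun s =>
    continuous_zet.comp (continuous_const.prodMk continuous_id)
  have key : ∀ c ∈ Icc (0:ℝ) 1, |I - J c| ≤ ε := by
    intro c hc
    set s : ℝ := c / h with hsdef
    have hsabs : |s| < δ := by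
      rw [hsdef, abs_of_nonneg (div_nonneg hc.1 hh0.le), div_lt_iff₀ hh0]
      have : 2 ≤ h * δ := by
        rw [div_le_iff₀ hδ] at hh
        exact hh
      nlinarith [hc.2]
    have e1 : I = ∫ x, g (eta s (zet (-c) (phi θ h x))) * g (eta s x) ∂mu := by
      have h2 : ∫ x, (fun x => g (phi θ h x) * g x) (eta s x) ∂mu =
          ∫ x, g (phi θ h x) * g x ∂mu := by
        have h3 := integral_map (μ := mu) (φ := eta s) (hceta s).measurable.aemeasurable
          (f := fun x => g (phi θ h x) * g x)
          ((hg.comp hcphi).mul hg).aestronglyMeasurable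
        rw [(mp_eta s).map_eq] at h3
        exact h3.symm
      rw [hI, ← h2]
      refine integral_congr_ae (Eventually.of_forall fun x => ?_)
      have h4 : h * s = c := by rw [hsdef]; field_simp
      simp only [phi_eta, h4]
    rw [e1]
    have hi1 : Integrable (fun x => g (eta s (zet (-c) (phi θ h x))) * g (eta s x)) mu :=
      int_of_cont ((hg.comp ((hceta s).comp ((hczet _).comp hcphi))).mul (hg.comp (hceta s)))
    have hi2 : Integrable (fun x => g (zet (-c) (phi θ h x)) * g x) mu :=
      int_of_cont ((hg.comp ((hczet _).comp hcphi)).mul hg)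
    rw [hJ, ← integral_sub hi1 hi2]
    have hbound : ∀ x, ‖g (eta s (zet (-c) (phi θ h x))) * g (eta s x) -
        g (zet (-c) (phi θ h x)) * g x‖ ≤ ε := by
      intro x
      rw [Real.norm_eq_abs]
      set y := zet (-c) (phi θ h x)
      have h1 := (hs s hsabs y).le
      have h2 := (hs s hsabs x).le
      have h3 := hB' (eta s x)
      have h4 := hB' y
      have h5 : g (eta s y) * g (eta s x) - g y * g x =
          (g (eta s y) - g y) * g (eta s x) + g y * (g (eta s x) - g x) := by ring
      rw [h5]
      refine (abs_add_le _ _).trans ?_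
      rw [abs_mul, abs_mul]
      have h6 : |g (eta s y) - g y| * |g (eta s x)| ≤ ω * B :=
        mul_le_mul h1 h3 (abs_nonneg _) hω0.le
      have h7 : |g y| * |g (eta s x) - g x| ≤ B * ω :=
        mul_le_mul h4 h2 (abs_nonneg _) hB0
      have h8 : ω * B + B * ω ≤ ε := by
        rw [hω]
        have : ε / (2 * (B + 1)) * B + B * (ε / (2 * (B + 1))) = ε * (B / (B + 1)) := by
          field_simp
          ring
        rw [this]
        have h9 : B / (B + 1) ≤ 1 := by
          rw [div_le_one (by linarith)]; linarith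
        nlinarith
      linarith
    refine (norm_integral_le_of_norm_le_const (μ := mu) (Eventually.of_forall hbound)).trans ?_
    simp
  -- the average of `J` vanishes
  have hJ0 : ∫ c in (0:ℝ)..1, J c = 0 := by
    have hcont : Continuous (Function.uncurry fun (c : ℝ) (x : M) =>
        g (zet (-c) (phi θ h x)) * g x) := by
      unfold Function.uncurry
      refine (hg.comp (continuous_zet.comp ((continuous_fst.neg).prodMk
        (hcphi.comp continuous_snd)))).mul (hg.comp continuous_snd)
    rw [hJ, fubini hcont]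
    have : ∀ x, ∫ c in (0:ℝ)..1, g (zet (-c) (phi θ h x)) * g x = 0 := by
      intro x
      rw [intervalIntegral.integral_mul_const]
      set y := phi θ h x
      have h1 := intervalIntegral.integral_comp_sub_left (a := 0) (b := 1)
        (fun c => g (zet c (zet (-1) y))) 1
      simp only [sub_zero, sub_self] at h1
      rw [hz] at h1
      have h2 : ∀ c : ℝ, zet (1 - c) (zet (-1) y) = zet (-c) y := by
        intro c
        rw [zet_add]
        congr 1
        ring
      simp only [h2] at h1
      rw [h1, zero_mul]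
    simp [this]
  have hJc : Continuous J := by
    have hcont : Continuous (Function.uncurry fun (c : ℝ) (x : M) =>
        g (zet (-c) (phi θ h x)) * g x) := by
      unfold Function.uncurry
      refine (hg.comp (continuous_zet.comp ((continuous_fst.neg).prodMk
        (hcphi.comp continuous_snd)))).mul (hg.comp continuous_snd)
    have := continuous_parametric_integral_of_continuous (μ := mu) hcont isCompact_univ
    simpa [hJ] using this
  have h1 : I = ∫ c in (0:ℝ)..1, (I - J c) := by
    rw [intervalIntegral.integral_sub (by simp) (hJc.intervalIntegrable _ _), hJ0]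
    simp
  rw [h1]
  have h2 := intervalIntegral.norm_integral_le_of_norm_le_const (a := 0) (b := 1)
    (f := fun c => I - J c) (C := ε) (fun c hc => by
      rw [uIoc_of_le zero_le_one] at hc
      exact key c ⟨hc.1.le, hc.2⟩)
  simpa using h2

end Pool.Agent.X189.HN
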