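import Pool.Agent.X189.HN.UE

set_option autoImplicit false

/-!
Unique ergodicity of irrational Heisenberg nilflows: the main argument.
-/

namespace Pool.Agent.X189.HN

open MeasureTheory Set Filter Topology Heis
open scoped ENNReal

/-! ### The torus factor -/

/-- The projection to the two-torus. -/
noncomputable def tor : M → UnitAddTorus (Fin 2) :=
  Quotient.lift (s := MulAction.orbitRel Gam Heis)
    (fun g : Heis => (![(g.1 : UnitAddCircle), (g.2.1 : UnitAddCircle)] : Fin 2 → UnitAddCircle))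
    (by
      rintro g h ⟨⟨_, a, b, c, rfl⟩, hγ⟩
      have h1 : g = pt a b c * h := hγ.symm
      have e : ∀ (n : ℤ) (u : ℝ), (((n : ℝ) + u : ℝ) : UnitAddCircle) = (u : UnitAddCircle) := by
        intro n u
        rw [AddCircle.coe_add]
        have : ((n : ℝ) : UnitAddCircle) = 0 := by
          rw [AddCircle.coe_eq_zero_iff]
          exact ⟨n, by simp⟩
        rw [this, zero_add]
      rw [h1]
      show ![((a + h.1 : ℝ) : UnitAddCircle), ((b + h.2.1 : ℝ) : UnitAddCircle)] = _
      rw [e, e])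

theorem tor_mk (g : Heis) : tor (mk g) = ![(g.1 : UnitAddCircle), (g.2.1 : UnitAddCircle)] := rfl

theorem continuous_tor : Continuous tor := by
  refine Continuous.quotient_lift ?_ _
  refine continuous_pi fun i => ?_
  fin_cases i
  · exact (AddCircle.continuous_mk' 1).comp (show Continuous fun g : ℝ × ℝ × ℝ => g.1 by fun_prop)
  · exact (AddCircle.continuous_mk' 1).comp (show Continuous fun g : ℝ × ℝ × ℝ => g.2.1 by fun_prop)

theorem mFourier_tor (n : Fin 2 → ℤ) (g : Heis) :
    UnitAddTorus.mFourier n (tor (mk g)) =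
      Complex.exp (2 * Real.pi * Complex.I * ((n 0 : ℝ) * g.1 + (n 1 : ℝ) * g.2.1 : ℝ)) := by
  rw [tor_mk]
  simp only [UnitAddTorus.mFourier, ContinuousMap.coe_mk, Fin.prod_univ_two, Matrix.cons_val_zero,
    Matrix.cons_val_one]
  rw [fourier_coe_apply, fourier_coe_apply, ← Complex.exp_add]
  congr 1
  push_cast
  ring

theorem fourier_zero_of_inv {θ : ℝ} (hθ : Irrational θ) {m : Measure M} [IsProbabilityMeasure m]
    (hm : ∀ t, m.map (phi θ t) = m) {n : Fin 2 → ℤ} (hn : n ≠ 0) :
    ∫ x, UnitAddTorus.mFourier n (tor x) ∂m = 0 := by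
  set w : ℝ := n 0 + n 1 * θ with hw
  have hw0 : w ≠ 0 := by
    intro h
    have h1 : (n 1 : ℤ) = 0 := by
      by_contra hne
      apply hθ
      refine ⟨-(n 0 : ℚ) / n 1, ?_⟩
      have hne' : (n 1 : ℝ) ≠ 0 := by exact_mod_cast hne
      push_cast
      rw [div_eq_iff hne']
      rw [hw] at h
      linarith
    have h0 : (n 0 : ℤ) = 0 := by
      rw [hw, h1] at h
      simp only [Int.cast_zero, zero_mul, add_zero] at h
      exact_mod_cast h
    apply hn
    funext i
    fin_cases i
    · exact h0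
    · exact h1
  set t : ℝ := 1 / (2 * w) with ht
  have hc : Continuous (phi θ t) := (continuous_phi θ).comp (continuous_const.prodMk continuous_id)
  have h1 : ∫ x, UnitAddTorus.mFourier n (tor (phi θ t x)) ∂m =
      ∫ x, UnitAddTorus.mFourier n (tor x) ∂m := by
    have h3 := integral_map (μ := m) (φ := phi θ t) hc.measurable.aemeasurable
      (f := fun x => UnitAddTorus.mFourier n (tor x))
      ((UnitAddTorus.mFourier n).continuous.comp continuous_tor).aestronglyMeasurable
    rw [hm t] at h3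
    exact h3.symm
  have h2 : ∀ x, UnitAddTorus.mFourier n (tor (phi θ t x)) =
      -UnitAddTorus.mFourier n (tor x) := by
    intro x
    obtain ⟨g, rfl⟩ := mk_surj x
    rw [phi_mk, mFourier_tor, mFourier_tor]
    simp only [pt_x, pt_y]
    have h4 : ((n 0 : ℝ) * (g.1 + t) + (n 1 : ℝ) * (g.2.1 + t * θ) : ℝ) =
        ((n 0 : ℝ) * g.1 + (n 1 : ℝ) * g.2.1) + 1 / 2 := by
      have : t * w = 1 / 2 := by rw [ht]; field_simp
      rw [hw] at this
      linarith
    rw [h4, Complex.ofReal_add, mul_add, Complex.exp_add]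
    have h5 : Complex.exp (2 * Real.pi * Complex.I * ((1 / 2 : ℝ) : ℂ)) = -1 := by
      rw [show (2 * Real.pi * Complex.I * ((1 / 2 : ℝ) : ℂ) : ℂ) = Real.pi * Complex.I by
        push_cast; ring]
      exact Complex.exp_pi_mul_I
    rw [h5]
    ring
  simp only [h2, integral_neg] at h1
  have h6 : (2 : ℂ) * ∫ x, UnitAddTorus.mFourier n (tor x) ∂m = 0 := by
    linear_combination -h1
  simpa using h6

theorem int_of_contC {X : Type*} [TopologicalSpace X] [CompactSpace X] [MeasurableSpace X]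
    [BorelSpace X] [SecondCountableTopology X] {m : Measure X}
    [IsFiniteMeasure m] {f : X → ℂ} (hf : Continuous f) : Integrable f m := by
  obtain ⟨C, hC⟩ := isCompact_univ.exists_bound_of_continuousOn (f := f) hf.continuousOn
  exact Integrable.of_bound hf.aestronglyMeasurable C
    (Eventually.of_forall fun x => hC x (mem_univ x))

theorem torus_map_eq {θ : ℝ} (hθ : Irrational θ) {m m' : Measure M} [IsProbabilityMeasure m]
    [IsProbabilityMeasure m'] (hm : ∀ t, m.map (phi θ t) = m) (hm' : ∀ t, m'.map (phi θ t) = m') :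
    m.map tor = m'.map tor := by
  have hprob : IsProbabilityMeasure (m.map tor) :=
    Measure.isProbabilityMeasure_map continuous_tor.measurable.aemeasurable
  have hprob' : IsProbabilityMeasure (m'.map tor) :=
    Measure.isProbabilityMeasure_map continuous_tor.measurable.aemeasurable
  have hiC : ∀ (ν : Measure M) [IsProbabilityMeasure ν] (P : C(UnitAddTorus (Fin 2), ℂ)),
      Integrable (fun x => P (tor x)) ν := fun ν _ P =>
    int_of_contC (P.continuous.comp continuous_tor)
  -- equality on the span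
  have hspan : ∀ P ∈ Submodule.span ℂ (range (UnitAddTorus.mFourier (d := Fin 2))),
      ∫ x, P (tor x) ∂m = ∫ x, P (tor x) ∂m' := by
    intro P hP
    induction hP using Submodule.span_induction with
    | mem P hP =>
      obtain ⟨n, rfl⟩ := hP
      by_cases hn : n = 0
      · subst hn
        simp [UnitAddTorus.mFourier_zero]
      · rw [fourier_zero_of_inv hθ hm hn, fourier_zero_of_inv hθ hm' hn]
    | zero => simp
    | add P Q _ _ hP hQ =>
      simp only [ContinuousMap.add_apply]
      rw [integral_add (hiC m P) (hiC m Q), integral_add (hiC m' P) (hiC m' Q), hP, hQ]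
    | smul a P _ hP =>
      simp only [ContinuousMap.smul_apply, smul_eq_mul, integral_const_mul, hP]
  have hall : ∀ P : C(UnitAddTorus (Fin 2), ℂ), ∫ x, P (tor x) ∂m = ∫ x, P (tor x) ∂m' := by
    intro P
    have hP : P ∈ (Submodule.span ℂ (range (UnitAddTorus.mFourier (d := Fin 2)))).topologicalClosure
        := by
      rw [UnitAddTorus.span_mFourier_closure_eq_top]; trivial
    have hP' : P ∈ closure (Submodule.span ℂ (range (UnitAddTorus.mFourier (d := Fin 2))) :
        Set C(UnitAddTorus (Fin 2), ℂ)) := hP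
    rw [Metric.mem_closure_iff] at hP'
    refine eq_of_forall_dist_le fun ε hε => ?_
    obtain ⟨Q, hQ, hPQ⟩ := hP' (ε / 2) (by positivity)
    have hest : ∀ (ν : Measure M) [IsProbabilityMeasure ν],
        ‖∫ x, P (tor x) ∂ν - ∫ x, Q (tor x) ∂ν‖ ≤ ε / 2 := by
      intro ν _
      rw [← integral_sub (hiC ν P) (hiC ν Q)]
      have hb : ∀ x, ‖P (tor x) - Q (tor x)‖ ≤ ε / 2 := by
        intro x
        rw [← dist_eq_norm]
        exact (ContinuousMap.dist_apply_le_dist _).trans hPQ.le
      refine (norm_integral_le_of_norm_le_const (μ := ν) (Eventually.of_forall hb)).trans ?_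
      simp
    have h1 := hest m
    have h2 := hest m'
    rw [← hspan Q hQ, ← dist_eq_norm] at h2
    rw [← dist_eq_norm] at h1
    calc dist (∫ x, P (tor x) ∂m) (∫ x, P (tor x) ∂m')
        ≤ dist (∫ x, P (tor x) ∂m) (∫ x, Q (tor x) ∂m) +
          dist (∫ x, P (tor x) ∂m') (∫ x, Q (tor x) ∂m) := dist_triangle_right _ _ _
      _ ≤ ε := by linarith
  refine ext_of_forall_integral_eq_of_IsFiniteMeasure fun f => ?_
  rw [integral_map continuous_tor.measurable.aemeasurable
    f.continuous.aestronglyMeasurable, integral_map continuous_tor.measurable.aemeasurable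
    f.continuous.aestronglyMeasurable]
  have h1 := hall ⟨fun x => (f x : ℂ), Complex.continuous_ofReal.comp f.continuous⟩
  simp only [ContinuousMap.coe_mk] at h1
  have h2 : ∀ ν : Measure M, ∫ x, ((f (tor x) : ℝ) : ℂ) ∂ν = ((∫ x, f (tor x) ∂ν : ℝ) : ℂ) :=
    fun ν => integral_ofReal
  rw [h2, h2] at h1
  exact_mod_cast h1

/-- A measurable section of the torus factor. -/
noncomputable def sec (w : UnitAddTorus (Fin 2)) : M :=
  mk (pt (AddCircle.measurableEquivIco 1 0 (w 0)) (AddCircle.measurableEquivIco 1 0 (w 1)) 0)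

theorem measurable_sec : Measurable sec := by
  refine continuous_mk.measurable.comp ?_
  show Measurable fun w : UnitAddTorus (Fin 2) =>
    (((AddCircle.measurableEquivIco 1 0 (w 0) : ℝ), (AddCircle.measurableEquivIco 1 0 (w 1) : ℝ),
      (0 : ℝ)) : ℝ × ℝ × ℝ)
  have h : ∀ i : Fin 2, Measurable fun w : UnitAddTorus (Fin 2) =>
      ((AddCircle.measurableEquivIco 1 0 (w i) : ℝ)) := fun i =>
    measurable_subtype_coe.comp ((AddCircle.measurableEquivIco 1 0).measurable.comp
      (measurable_pi_apply i))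
  exact (h 0).prodMk ((h 1).prodMk measurable_const)

theorem rep_coe (u : ℝ) : ∃ a : ℤ,
    ((AddCircle.measurableEquivIco 1 0 (u : UnitAddCircle)) : ℝ) = a + u := by
  have h1 : ((((AddCircle.measurableEquivIco 1 0 (u : UnitAddCircle)) : ℝ)) : UnitAddCircle) =
      (u : UnitAddCircle) := (AddCircle.measurableEquivIco 1 0).symm_apply_apply _
  rw [← sub_eq_zero, ← AddCircle.coe_sub, AddCircle.coe_eq_zero_iff] at h1
  obtain ⟨n, hn⟩ := h1
  refine ⟨n, ?_⟩
  have : (n : ℝ) = ((AddCircle.measurableEquivIco 1 0 (u : UnitAddCircle)) : ℝ) - u := by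
    simpa using hn
  linarith

theorem central_factor {h : M → ℝ} (hinv : ∀ c x, h (zet c x) = h x) (x : M) :
    h (sec (tor x)) = h x := by
  obtain ⟨g, rfl⟩ := mk_surj x
  obtain ⟨a, ha⟩ := rep_coe g.1
  obtain ⟨b, hb⟩ := rep_coe g.2.1
  have h1 : sec (tor (mk g)) = mk (pt (a + g.1) (b + g.2.1) 0) := by
    rw [sec, tor_mk]
    simp only [Matrix.cons_val_zero, Matrix.cons_val_one]
    rw [ha, hb]
  have h2 : mk (pt (a + g.1) (b + g.2.1) 0) = zet (-(a * g.2.1) - g.2.2) (mk g) := by
    rw [zet_mk]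
    refine mk_eq_iff.2 ⟨a, b, 0, ?_⟩
    apply Heis.ext' <;> simp <;> ring
  rw [h1, h2, hinv]

theorem central_int_eq {θ : ℝ} (hθ : Irrational θ) {m : Measure M} [IsProbabilityMeasure m]
    (hm : ∀ t, m.map (phi θ t) = m) {h : M → ℝ} (hc : Continuous h)
    (hinv : ∀ c x, h (zet c x) = h x) : ∫ x, h x ∂m = ∫ x, h x ∂mu := by
  have h1 : ∀ ν : Measure M, ∫ x, h x ∂ν = ∫ w, h (sec w) ∂(ν.map tor) := by
    intro ν
    have h2 := integral_map (μ := ν) (φ := tor) continuous_tor.measurable.aemeasurable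
      (f := fun w => h (sec w)) (hc.measurable.comp measurable_sec).aestronglyMeasurable
    rw [h2]
    simp only [central_factor hinv]
  rw [h1 m, h1 mu, torus_map_eq hθ hm (fun t => (mp_phi θ t).map_eq)]

/-! ### The main argument -/

theorem sq_int_le {m : Measure M} [IsProbabilityMeasure m] {A : M → ℝ} (hA : Continuous A) :
    (∫ x, A x ∂m) ^ 2 ≤ ∫ x, A x ^ 2 ∂m := by
  set a := ∫ x, A x ∂m with ha
  have h1 : 0 ≤ ∫ x, (A x - a) ^ 2 ∂m := integral_nonneg fun x => sq_nonneg _
  have h2 : ∫ x, (A x - a) ^ 2 ∂m = ∫ x, A x ^ 2 ∂m - a ^ 2 := by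
    have h3 : ∀ x, (A x - a) ^ 2 = (A x ^ 2 - 2 * a * A x) + a ^ 2 := fun x => by ring
    simp only [h3]
    have i1 : Integrable (fun x => A x ^ 2) m := int_of_cont (hA.pow 2)
    have i2 : Integrable (fun x => 2 * a * A x) m := int_of_cont (continuous_const.mul hA)
    have i3 : Integrable (fun x => A x ^ 2 - 2 * a * A x) m := i1.sub i2
    rw [integral_add i3 (integrable_const _), integral_sub i1 i2, integral_const_mul, ← ha]
    simp
    ring
  linarith

theorem cphi (θ t : ℝ) : Continuous (phi θ t) :=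
  (continuous_phi θ).comp (continuous_const.prodMk continuous_id)

theorem czet (c : ℝ) : Continuous (zet c) :=
  continuous_zet.comp (continuous_const.prodMk continuous_id)

theorem int_phi {θ : ℝ} {m : Measure M} (hm : ∀ t, m.map (phi θ t) = m) {F : M → ℝ}
    (hF : Continuous F) (t : ℝ) : ∫ x, F (phi θ t x) ∂m = ∫ x, F x ∂m := by
  have h3 := integral_map (μ := m) (φ := phi θ t) (cphi θ t).measurable.aemeasurable
    (f := F) hF.aestronglyMeasurable
  rw [hm t] at h3
  exact h3.symm

theorem int_zet {F : M → ℝ} (hF : Continuous F) (c : ℝ) :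
    ∫ x, F (zet c x) ∂mu = ∫ x, F x ∂mu := by
  have h3 := integral_map (μ := mu) (φ := zet c) (czet c).measurable.aemeasurable
    (f := F) hF.aestronglyMeasurable
  rw [(mp_zet c).map_eq] at h3
  exact h3.symm

theorem center_avg_inv (F : M → ℝ) (d : ℝ) (x : M) :
    ∫ c in (0:ℝ)..1, F (zet c (zet d x)) = ∫ c in (0:ℝ)..1, F (zet c x) := by
  have hper : Function.Periodic (fun c : ℝ => F (zet c x)) 1 := by
    intro c
    have h1 : zet (c + 1) x = zet c x := by
      calc zet (c + 1) x = zet 1 (zet c x) := (zet_add 1 c x).symm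
        _ = zet c x := zet_one _
    show F (zet (c + 1) x) = F (zet c x)
    rw [h1]
  have h0 : ∀ c : ℝ, F (zet c (zet d x)) = (fun c : ℝ => F (zet c x)) (d + c) := by
    intro c
    show F (zet c (zet d x)) = F (zet (d + c) x)
    rw [zet_add]
  have h1 := intervalIntegral.integral_comp_add_left (a := 0) (b := 1)
    (fun c : ℝ => F (zet c x)) d
  have h2 := hper.intervalIntegral_add_eq d 0
  simp only [h0]
  rw [h1, add_zero, h2, zero_add]

theorem avg_sq {θ : ℝ} {g : M → ℝ} (hg : Continuous g) {B : ℝ} (hB' : ∀ x, |g x| ≤ B)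
    (hB0 : 0 ≤ B) {ε : ℝ} (hε : 0 ≤ ε) {H : ℝ} (hH0 : 0 < H)
    (hH : ∀ h, H ≤ h → |∫ x, g (phi θ h x) * g x ∂mu| ≤ ε) {N : ℕ} (hN : 0 < N) :
    ∫ x, ((N : ℝ)⁻¹ * ∑ j ∈ Finset.range N, g (phi θ (j * H) x)) ^ 2 ∂mu ≤ B ^ 2 / N + ε := by
  have hN0 : (0 : ℝ) < N := by exact_mod_cast hN
  have hij : ∀ i j : ℕ, Integrable (fun x => g (phi θ (i * H) x) * g (phi θ (j * H) x)) mu :=
    fun i j => int_of_cont ((hg.comp (cphi θ _)).mul (hg.comp (cphi θ _)))
  have hexp : ∀ x, ((N : ℝ)⁻¹ * ∑ j ∈ Finset.range N, g (phi θ (j * H) x)) ^ 2 =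
      ((N : ℝ)⁻¹) ^ 2 * ∑ i ∈ Finset.range N, ∑ j ∈ Finset.range N,
      g (phi θ (i * H) x) * g (phi θ (j * H) x) := by
    intro x
    rw [mul_pow, sq (∑ j ∈ Finset.range N, g (phi θ (j * H) x)), Finset.sum_mul_sum]
  simp only [hexp]
  rw [integral_const_mul, integral_finsetSum _ (fun i _ => integrable_finsetSum _ fun j _ =>
    hij i j)]
  have hin : ∀ i ∈ Finset.range N, ∫ x, ∑ j ∈ Finset.range N,
      g (phi θ (i * H) x) * g (phi θ (j * H) x) ∂mu =
      ∑ j ∈ Finset.range N, ∫ x, g (phi θ (i * H) x) * g (phi θ (j * H) x) ∂mu := by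
    intro i _
    exact integral_finsetSum _ fun j _ => hij i j
  rw [Finset.sum_congr rfl hin]
  -- the off-diagonal terms
  have hoff : ∀ i j : ℕ, i < j →
      |∫ x, g (phi θ (i * H) x) * g (phi θ (j * H) x) ∂mu| ≤ ε := by
    intro i j hij
    have h1 : ∀ x, g (phi θ (i * H) x) * g (phi θ (j * H) x) =
        (fun y => g (phi θ ((j - i : ℝ) * H) y) * g y) (phi θ (i * H) x) := by
      intro x
      simp only [phi_add]
      rw [show (i : ℝ) * H + (j - i) * H = j * H by ring]
      ring
    simp only [h1]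
    rw [int_phi (θ := θ) (m := mu) (fun t => (mp_phi θ t).map_eq)
      (F := fun y => g (phi θ ((j - i : ℝ) * H) y) * g y)
      ((hg.comp (cphi θ _)).mul hg)]
    apply hH
    have : (1 : ℝ) ≤ j - i := by
      have : ((i + 1 : ℕ) : ℝ) ≤ j := by exact_mod_cast hij
      push_cast at this
      linarith
    nlinarith
  have hterm : ∀ i j : ℕ, ∫ x, g (phi θ (i * H) x) * g (phi θ (j * H) x) ∂mu ≤
      (if i = j then B ^ 2 else 0) + ε := by
    intro i j
    rcases lt_trichotomy i j with hij | hij | hij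
    · rw [if_neg hij.ne, zero_add]
      exact (le_abs_self _).trans (hoff i j hij)
    · rw [if_pos hij, hij]
      have hb : ∀ x, ‖g (phi θ (j * H) x) * g (phi θ (j * H) x)‖ ≤ B ^ 2 := by
        intro x
        rw [norm_mul, sq]
        exact mul_le_mul (hB' _) (hB' _) (abs_nonneg _) hB0
      have h2 := norm_integral_le_of_norm_le_const (μ := mu) (Eventually.of_forall hb)
      simp only [Real.norm_eq_abs] at h2
      have h3 := (le_abs_self _).trans h2
      simp only [probReal_univ, mul_one] at h3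
      linarith
    · rw [if_neg hij.ne', zero_add]
      have h1 := hoff j i hij
      have h2 : ∀ x, g (phi θ (i * H) x) * g (phi θ (j * H) x) =
          g (phi θ (j * H) x) * g (phi θ (i * H) x) := fun x => mul_comm _ _
      simp only [h2]
      exact (le_abs_self _).trans h1
  have hsum : ∑ i ∈ Finset.range N, ∑ j ∈ Finset.range N,
      ∫ x, g (phi θ (i * H) x) * g (phi θ (j * H) x) ∂mu ≤ N * B ^ 2 + N ^ 2 * ε := by
    calc ∑ i ∈ Finset.range N, ∑ j ∈ Finset.range N,
        ∫ x, g (phi θ (i * H) x) * g (phi θ (j * H) x) ∂mu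
        ≤ ∑ i ∈ Finset.range N, ∑ j ∈ Finset.range N, ((if i = j then B ^ 2 else 0) + ε) :=
          Finset.sum_le_sum fun i _ => Finset.sum_le_sum fun j _ => hterm i j
      _ = N * B ^ 2 + N ^ 2 * ε := by
          simp only [Finset.sum_add_distrib, Finset.sum_ite_eq, Finset.mem_range,
            Finset.sum_const, Finset.card_range, nsmul_eq_mul]
          have : ∑ x ∈ Finset.range N, (if x < N then B ^ 2 else 0) = N * B ^ 2 := by
            rw [Finset.sum_congr rfl (fun x hx => if_pos (Finset.mem_range.1 hx))]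
            simp
          rw [this]
          ring
  calc ((N : ℝ)⁻¹) ^ 2 * ∑ i ∈ Finset.range N, ∑ j ∈ Finset.range N,
      ∫ x, g (phi θ (i * H) x) * g (phi θ (j * H) x) ∂mu
      ≤ ((N : ℝ)⁻¹) ^ 2 * (N * B ^ 2 + N ^ 2 * ε) :=
        mul_le_mul_of_nonneg_left hsum (by positivity)
    _ = B ^ 2 / N + ε := by
        field_simp

theorem k_sq_le {θ : ℝ} (hθ : Irrational θ) {m : Measure M} [IsProbabilityMeasure m]
    (hm : ∀ t, m.map (phi θ t) = m) {A : M → ℝ} (hAc : Continuous A) {k : ℝ → ℝ}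
    (hkc : Continuous k) (hkA : ∀ c, k c = ∫ x, A (zet c x) ∂m) :
    ∫ c in (0:ℝ)..1, k c ^ 2 ≤ ∫ x, A x ^ 2 ∂mu := by
  have hcont2 : Continuous (Function.uncurry fun (c : ℝ) (x : M) => A (zet c x) ^ 2) := by
    show Continuous fun q : ℝ × M => A (zet q.1 q.2) ^ 2
    exact (hAc.comp continuous_zet).pow 2
  have hcont3 : Continuous (Function.uncurry fun (x : M) (c : ℝ) => A (zet c x) ^ 2) := by
    show Continuous fun q : M × ℝ => A (zet q.2 q.1) ^ 2
    exact (hAc.comp (continuous_zet.comp (continuous_snd.prodMk continuous_fst))).pow 2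
  have hhc : Continuous (fun x => ∫ c in (0:ℝ)..1, A (zet c x) ^ 2) :=
    intervalIntegral.continuous_parametric_intervalIntegral_of_continuous' hcont3 0 1
  have hhinv : ∀ d x, (fun x => ∫ c in (0:ℝ)..1, A (zet c x) ^ 2) (zet d x) =
      (fun x => ∫ c in (0:ℝ)..1, A (zet c x) ^ 2) x := fun d x =>
    center_avg_inv (fun y => A y ^ 2) d x
  have hc4 : Continuous fun c => ∫ x, A (zet c x) ^ 2 ∂m := by
    have := continuous_parametric_integral_of_continuous (μ := m) hcont2 isCompact_univ
    simpa using this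
  have e1 : ∫ c in (0:ℝ)..1, k c ^ 2 ≤ ∫ c in (0:ℝ)..1, (∫ x, A (zet c x) ^ 2 ∂m) := by
    refine intervalIntegral.integral_mono_on zero_le_one
      ((hkc.pow 2).intervalIntegrable _ _) (hc4.intervalIntegrable _ _) ?_
    intro c _
    rw [hkA]
    exact sq_int_le (hAc.comp (czet c))
  have e2 : ∫ c in (0:ℝ)..1, (∫ x, A (zet c x) ^ 2 ∂m) =
      ∫ x, (∫ c in (0:ℝ)..1, A (zet c x) ^ 2) ∂m := fubini hcont2 0 1
  have e3 : ∫ x, (∫ c in (0:ℝ)..1, A (zet c x) ^ 2) ∂m =
      ∫ x, (∫ c in (0:ℝ)..1, A (zet c x) ^ 2) ∂mu := central_int_eq hθ hm hhc hhinv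
  have e4 : ∫ x, (∫ c in (0:ℝ)..1, A (zet c x) ^ 2) ∂mu = ∫ x, A x ^ 2 ∂mu := by
    rw [← fubini hcont2 0 1]
    have : ∀ c : ℝ, ∫ x, A (zet c x) ^ 2 ∂mu = ∫ x, A x ^ 2 ∂mu := fun c =>
      int_zet (F := fun x => A x ^ 2) (hAc.pow 2) c
    simp only [this]
    simp
  rw [e2, e3, e4] at e1
  exact e1

theorem zero_of_central {θ : ℝ} (hθ : Irrational θ) {m : Measure M} [IsProbabilityMeasure m]
    (hm : ∀ t, m.map (phi θ t) = m) {g : M → ℝ} (hg : Continuous g)
    (hz : ∀ x, ∫ c in (0:ℝ)..1, g (zet c x) = 0) : ∫ x, g x ∂m = 0 := by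
  obtain ⟨B, hB⟩ := isCompact_univ.exists_bound_of_continuousOn (f := g) hg.continuousOn
  have hB' : ∀ x, |g x| ≤ B := fun x => hB x (mem_univ x)
  have hB0 : 0 ≤ B := (abs_nonneg _).trans (hB' (mk 1))
  obtain ⟨k, hk⟩ : ∃ k : ℝ → ℝ, ∀ c, k c = ∫ x, g (zet c x) ∂m := ⟨_, fun _ => rfl⟩
  have hkc : Continuous k := by
    have hcont : Continuous (Function.uncurry fun (c : ℝ) (x : M) => g (zet c x)) :=
      hg.comp continuous_zet
    have h2 := continuous_parametric_integral_of_continuous (μ := m) hcont isCompact_univ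
    have h3 : k = fun c => ∫ x, g (zet c x) ∂m := funext hk
    rw [h3]
    simpa using h2
  have main : ∀ ε : ℝ, 0 < ε → ∀ N : ℕ, 0 < N →
      ∫ c in (0:ℝ)..1, k c ^ 2 ≤ B ^ 2 / N + ε := by
    intro ε hε N hN
    obtain ⟨H, hH0, hH⟩ := corr_small θ hg hz hε
    have hN0 : (0 : ℝ) < N := by exact_mod_cast hN
    obtain ⟨A, hA⟩ : ∃ A : M → ℝ, A = fun x =>
      (N : ℝ)⁻¹ * ∑ j ∈ Finset.range N, g (phi θ (j * H) x) := ⟨_, rfl⟩
    have hAc : Continuous A := by
      rw [hA]
      refine continuous_const.mul (continuous_finsetSum _ fun j _ => hg.comp (cphi θ _))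
    have hkA : ∀ c, k c = ∫ x, A (zet c x) ∂m := by
      intro c
      simp only [hA]
      have i1 : ∀ j ∈ Finset.range N, Integrable (fun x => g (phi θ (j * H) (zet c x))) m :=
        fun j _ => int_of_cont (hg.comp ((cphi θ _).comp (czet c)))
      rw [integral_const_mul, integral_finsetSum _ i1]
      have : ∀ j ∈ Finset.range N, ∫ x, g (phi θ (j * H) (zet c x)) ∂m = k c := by
        intro j _
        simp only [zet_phi, hk]
        exact int_phi hm (F := fun x => g (zet c x)) (hg.comp (czet c)) _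
      rw [Finset.sum_congr rfl this, Finset.sum_const, Finset.card_range, nsmul_eq_mul]
      field_simp
    have e5 : ∫ x, A x ^ 2 ∂mu ≤ B ^ 2 / N + ε := by
      rw [hA]
      exact avg_sq hg hB' hB0 hε.le hH0 hH hN
    exact (k_sq_le hθ hm hAc hkc hkA).trans e5
  -- hence the integral of `k²` vanishes
  have hk0 : ∫ c in (0:ℝ)..1, k c ^ 2 ≤ 0 := by
    refine le_of_forall_pos_le_add fun ε hε => ?_
    obtain ⟨N, hN⟩ := exists_nat_gt (B ^ 2 / (ε / 2))
    have hN0 : (0 : ℝ) < N := lt_of_le_of_lt (by positivity) hN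
    have h1 := main (ε / 2) (by positivity) N (by exact_mod_cast hN0)
    have h2 : B ^ 2 / N ≤ ε / 2 := by
      rw [div_le_iff₀ hN0]
      rw [div_lt_iff₀ (by positivity)] at hN
      linarith
    linarith
  have hk1 : k 0 = 0 := by
    by_contra hne
    have hpos : 0 < ∫ c in (0:ℝ)..1, k c ^ 2 := by
      refine intervalIntegral.integral_pos zero_lt_one (hkc.pow 2).continuousOn
        (fun c _ => sq_nonneg _) ⟨0, ⟨le_rfl, zero_le_one⟩, by positivity⟩
    linarith
  have : k 0 = ∫ x, g x ∂m := by rw [hk]; simp only [zet_zero]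
  rw [← this, hk1]

/-- **Unique ergodicity** of the nilflow in direction `(1, θ, 0)`, `θ` irrational. -/
theorem uniquely_ergodic {θ : ℝ} (hθ : Irrational θ) (m : Measure M) [IsProbabilityMeasure m]
    (hm : ∀ t, m.map (phi θ t) = m) : m = mu := by
  refine ext_of_forall_integral_eq_of_IsFiniteMeasure fun f => ?_
  have hfc : Continuous f := f.continuous
  have hcont : Continuous (Function.uncurry fun (x : M) (c : ℝ) => f (zet c x)) :=
    (hfc.comp continuous_zet).comp (continuous_snd.prodMk continuous_fst)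
  set f0 : M → ℝ := fun x => ∫ c in (0:ℝ)..1, f (zet c x) with hf0
  have hf0c : Continuous f0 :=
    intervalIntegral.continuous_parametric_intervalIntegral_of_continuous' hcont 0 1
  have hf0inv : ∀ d x, f0 (zet d x) = f0 x := fun d x => center_avg_inv f d x
  set g : M → ℝ := fun x => f x - f0 x with hg
  have hgc : Continuous g := hfc.sub hf0c
  have hgz : ∀ x, ∫ c in (0:ℝ)..1, g (zet c x) = 0 := by
    intro x
    simp only [hg, hf0inv]
    have i1 : Continuous fun c : ℝ => f (zet c x) :=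
      hfc.comp (continuous_zet.comp (continuous_id.prodMk continuous_const))
    rw [intervalIntegral.integral_sub (i1.intervalIntegrable _ _) (by simp)]
    rw [intervalIntegral.integral_const, sub_zero, one_smul]
    exact sub_self _
  have h1 := zero_of_central hθ hm hgc hgz
  have h2 := zero_of_central hθ (m := mu) (fun t => (mp_phi θ t).map_eq) hgc hgz
  have h3 : ∀ (ν : Measure M) [IsProbabilityMeasure ν], ∫ x, g x ∂ν = ∫ x, f x ∂ν -
      ∫ x, f0 x ∂ν := by
    intro ν _
    exact integral_sub (int_of_cont hfc) (int_of_cont hf0c)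
  rw [h3] at h1 h2
  have h4 := central_int_eq hθ hm hf0c hf0inv
  linarith

end Pool.Agent.X189.HN
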